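import Pool.Agent.RST.Defs
import Pool.Agent.TFR.StmtsB

/-!
# FIN: from the counts of sections on the normal model to the full counts modulo `Q`

The structure `Tub V Q A` is the interface between the counts on the graded domain `B` (the
normalisation of the homogeneous coordinate ring of the close model, RST and BRG) and
`TFR.FullV`.
-/

set_option autoImplicit false

noncomputable section

namespace Pool.Agent.FIN

open scoped Classical
open MvPolynomial Pool.Agent.LibDb3ab1 Pool.Agent.DC Pool.Agent.FRM Pool.Agent.TFR Pool.Agent.RST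

/-- The quotient of the graded domain `B` by `q` has growth at least `δ m ^ 2 / 2`. -/
def Grow {K B : Type} [Field K] [CommRing B] [Algebra K B] (ℬ : ℕ → Submodule K B) (q : Ideal B)
    (δ : ℕ) : Prop :=
  ∃ C : ℕ, ∀ m : ℕ, δ * (m : ℚ) ^ 2 / 2 ≤
    Module.finrank K ((ℬ m).map (Ideal.Quotient.mkₐ K q).toLinearMap) + C * ((m : ℚ) + 1)

/-- The homomorphism `V[x] → B / J`. -/
def vJ {N : ℕ} {K : Type} [Field K] (V : ValuationSubring K) {B : Type} [CommRing B] [Algebra K B]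
    (φ : MvPolynomial (Fin (N + 1)) K →ₐ[K] B) (J : Ideal B) :
    MvPolynomial (Fin (N + 1)) V →+* B ⧸ J :=
  ((Ideal.Quotient.mk J).comp (φ : MvPolynomial (Fin (N + 1)) K →+* B)).comp
    (MvPolynomial.map V.subtype)

/-- **The interface.**  `B` is a graded domain, finite over `K[x]`, `q` a homogeneous prime ideal
over `Q`, `JJ` the family of the ideals of the compact surfaces in the tube of the common zeros of
the coordinates `X i`, `i ∈ A`. -/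
structure Tub {N : ℕ} {K : Type} [Field K] (V : ValuationSubring K)
    (Q : Ideal (MvPolynomial (Fin (N + 1)) K)) (A : Set (Fin (N + 1))) where
  B : Type
  [crB : CommRing B]
  [domB : IsDomain B]
  [aKB : Algebra K B]
  /-- a field of fractions of `B` -/
  L : Type
  [fL : Field L]
  [aBL : Algebra B L]
  [frL : IsFractionRing B L]
  [aKL : Algebra K L]
  [towL : IsScalarTower K B L]
  ℬ : ℕ → Submodule K B
  [grB : GradedAlgebra ℬ]
  φ : MvPolynomial (Fin (N + 1)) K →ₐ[K] B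
  φ_deg : ∀ i, φ (X i) ∈ ℬ 1
  fin : ∃ T : Finset B, ∀ b : B, ∃ f : B → MvPolynomial (Fin (N + 1)) K, b = ∑ t ∈ T, φ (f t) * t
  q : Ideal B
  q_prime : q.IsPrime
  q_hom : q.IsHomogeneous ℬ
  q_comap : ∀ g, φ g ∈ q ↔ g ∈ Q
  JJ : Set (Ideal B)
  JJ_ne : JJ.Nonempty
  JJ_mul : ∀ J ∈ JJ, ∀ J' ∈ JJ, J * J' ∈ JJ
  JJ_hom : ∀ J ∈ JJ, J.IsHomogeneous ℬ
  JJ_tube : ∀ J ∈ JJ, ∀ i ∈ A, ∃ ϖ : V, ϖ ≠ 0 ∧ ¬IsUnit ϖ ∧ (vJ V φ J).IsIntegralElem
    (Ideal.Quotient.mk J (φ (C ((ϖ : K)⁻¹) * X i)))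
  /-- the compact surfaces of the tube do not contain `q` (FIN1: from `RST.Ctx`) -/
  JJ_q : ∀ δ : ℕ, 0 < δ → Grow ℬ q δ → ∀ J ∈ JJ, ∃ (k : ℕ) (g : MvPolynomial (Fin (N + 1)) K),
    g.IsHomogeneous k ∧ g ∉ Q ∧ φ g ∈ J
  W_fin : ∀ m, Module.Finite K (WP (L := L) ℬ JJ JJ_ne JJ_mul ⊤ m)
  cnt : ∀ δ : ℕ, 0 < δ → Grow ℬ q δ → ∀ ε : ℝ, 0 < ε → ∃ m₀ : ℕ, ∀ m : ℕ, m₀ ≤ m →
    ((3 / 5 : ℝ) * δ - ε) * (m : ℝ) ^ 2 ≤
      (Module.finrank K (WP (L := L) ℬ JJ JJ_ne JJ_mul ⊤ m) : ℝ) -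
        Module.finrank K (WP (L := L) ℬ JJ JJ_ne JJ_mul q m)

attribute [instance] Tub.crB Tub.domB Tub.aKB Tub.fL Tub.aBL Tub.frL Tub.aKL Tub.towL Tub.grB

/-- The full counts in the tubes modulo `Q`, of degree `δ`. -/
def FullW {K : Type} [Field K] (V : ValuationSubring K)
    (Q : Ideal (MvPolynomial (Fin (XV.N + 1)) K)) [Q.IsPrime] (δ : ℕ) : Prop :=
  ∀ s : Fin 10, ∀ ε : ℝ, 0 < ε → ∃ n₀ : ℕ, ∀ n : ℕ, n₀ ≤ n →
    ∃ (k m : ℕ) (G₀ : MvPolynomial (Fin (XV.N + 1)) K)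
      (G : Fin m → MvPolynomial (Fin (XV.N + 1)) K),
      G₀.IsHomogeneous k ∧ G₀ ∉ Q ∧ (∀ i, (G i).IsHomogeneous (k + n)) ∧
      LinearIndependent K (fun i => Ideal.Quotient.mk Q (G i)) ∧
      (∀ i, PolesV V Q {c | 1 ≤ (XV.pt c).e s} G₀ (G i)) ∧
      ((3 / 5 : ℝ) * δ - ε) * n ^ 2 ≤ m

/-- **The target of BRG**: the counts in all tubes, for all exact primes. -/
def Stmt_Tub : Prop :=
  ∀ (p : ℕ) [Fact p.Prime] (J : Type) [Finite J] (E : Eqs p XV.N J), XV.GoodEqs E →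
    ∀ (M : CompleteModel E (2 + 1)) (T : ExactPrime M {c | 1 ≤ (XV.pt c).w}) (s : Fin 10),
      Nonempty (Tub M.V T.Q {c | 1 ≤ (XV.pt c).e s})

end Pool.Agent.FIN
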