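import Pool.Agent.FIN.Alg

/-!
# FIN: existence of a homogeneous prime ideal over `Q`
-/

set_option autoImplicit false

noncomputable section

namespace Pool.Agent.FIN

open scoped Classical
open MvPolynomial Pool.Agent.FRM

/-- **Going up for homogeneous prime ideals.** -/
theorem exists_q {N : ℕ} {K : Type} [Field K] {B : Type} [CommRing B] [Algebra K B]
    {ℬ : ℕ → Submodule K B} [GradedAlgebra ℬ] (φ : MvPolynomial (Fin (N + 1)) K →ₐ[K] B)
    (hdeg : ∀ i, φ (X i) ∈ ℬ 1)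
    (hint : ∀ b, (φ : MvPolynomial (Fin (N + 1)) K →+* B).IsIntegralElem b)
    {P Q : Ideal (MvPolynomial (Fin (N + 1)) K)} (hker : RingHom.ker φ = P) (hPQ : P ≤ Q)
    (hQ : Q.IsPrime) (hom : Homog Q) :
    ∃ q : Ideal B, q.IsPrime ∧ q.IsHomogeneous ℬ ∧ ∀ g, φ g ∈ q ↔ g ∈ Q := by
  let : Algebra (MvPolynomial (Fin (N + 1)) K) B :=
    (φ : MvPolynomial (Fin (N + 1)) K →+* B).toAlgebra
  have : Algebra.IsIntegral (MvPolynomial (Fin (N + 1)) K) B := ⟨hint⟩
  have h1 : (⊥ : Ideal B).comap (algebraMap (MvPolynomial (Fin (N + 1)) K) B) ≤ Q := by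
    intro g hg
    apply hPQ
    rw [← hker, RingHom.mem_ker]
    exact hg
  obtain ⟨q, -, hq, hqc⟩ := Ideal.exists_ideal_over_prime_of_isIntegral Q ⊥ h1
  have h2 : ∀ g, φ g ∈ q ↔ g ∈ Q := by
    intro g
    rw [← hqc, Ideal.mem_comap]
    rfl
  refine ⟨(q.homogeneousCore ℬ).toIdeal, hq.homogeneousCore,
    (q.homogeneousCore ℬ).isHomogeneous, fun g => ⟨fun h => ?_, fun h => ?_⟩⟩
  · exact (h2 g).1 (Ideal.toIdeal_homogeneousCore_le ℬ q h)
  · rw [← sum_homogeneousComponent g, map_sum]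
    refine Ideal.sum_mem _ fun m _ => ?_
    exact Ideal.mem_homogeneousCore_of_homogeneous_of_mem
      ⟨m, φ_hom hdeg (homogeneousComponent_isHomogeneous m g)⟩ ((h2 _).2 (hom g h m))

end Pool.Agent.FIN
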