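import Pool.Agent.RST.Stmts

/-!
# FIN, piece (N): the ideals of the family `JJ` are not contained in `q`
-/

set_option autoImplicit false

namespace Pool.Agent.FIN

open MvPolynomial Pool.Agent.GML Pool.Agent.RST
open scoped Classical

noncomputable section

/-- nonzero constant term -/
theorem nn_const {A R : Type} [CommRing A] [IsDomain A] [CommRing R] [IsDomain R] (φ : A →+* R)
    (a : R) (ha : a ≠ 0) (hi : φ.IsIntegralElem a) : ∃ r : A, r ≠ 0 ∧ ∃ b : R, φ r = a * b := by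
  obtain ⟨f, hf, hfa⟩ := hi
  have hf0 : f ≠ 0 := hf.ne_zero
  obtain ⟨g, hg⟩ : ∃ g : Polynomial A, f = Polynomial.X ^ f.natTrailingDegree * g := by
    have h2 : (Polynomial.X : Polynomial A) ^ f.natTrailingDegree ∣ f :=
      Polynomial.X_pow_dvd_iff.2 fun d hd =>
        Polynomial.coeff_eq_zero_of_lt_natTrailingDegree hd
    exact h2
  have hg0 : g.coeff 0 ≠ 0 := by
    have h1 : f.coeff f.natTrailingDegree ≠ 0 := by
      have := Polynomial.trailingCoeff_nonzero_iff_nonzero.2 hf0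
      exact this
    rw [hg] at h1
    have h3 : (Polynomial.X ^ f.natTrailingDegree * g).coeff
        (0 + f.natTrailingDegree) = g.coeff 0 := by
      rw [Polynomial.coeff_X_pow_mul]
    rw [zero_add] at h3
    intro h4
    apply h1
    rw [← hg] at h3 ⊢
    rw [h3, h4]
  have hga : Polynomial.eval₂ φ a g = 0 := by
    rw [hg, Polynomial.eval₂_mul, Polynomial.eval₂_X_pow] at hfa
    exact (mul_eq_zero.1 hfa).resolve_left (pow_ne_zero _ ha)
  refine ⟨g.coeff 0, hg0, -Polynomial.eval₂ φ a g.divX, ?_⟩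
  have h5 := Polynomial.divX_mul_X_add g
  have h6 : Polynomial.eval₂ φ a g = Polynomial.eval₂ φ a g.divX * a + φ (g.coeff 0) := by
    conv_lhs => rw [← h5]
    rw [Polynomial.eval₂_add, Polynomial.eval₂_mul, Polynomial.eval₂_X, Polynomial.eval₂_C]
  rw [hga] at h6
  linear_combination -h6

/-- **(N)** -/
theorem jnq (hCUT : Stmt_CUT) (hCST : Stmt_CST) (hQMX : Stmt_QMX) (hQQQ : Stmt_QQQ)
    (hGEN : Stmt_GEN) (hETX : Stmt_ETX) (hZRK : Stmt_ZRK) (hZPC : Stmt_ZPC) (Z : Ctx)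
    (hδ : 0 < Z.δ) (J : Ideal Z.B) (hJ : J ∈ Z.JJ) :
    ∃ (k : ℕ) (G : Po Z.V Z.n), G.IsHomogeneous k ∧ aeval Z.x G ∈ J ∧ aeval Z.x G ∉ Z.q := by
  by_contra hcon
  have hJq : ∀ (k : ℕ) (G : Po Z.V Z.n), G.IsHomogeneous k → aeval Z.x G ∈ J →
      aeval Z.x G ∈ Z.q := by
    intro k G h1 h2
    by_contra h3
    exact hcon ⟨k, G, h1, h2, h3⟩
  obtain ⟨Y⟩ := hCUT Z
  have hz : Zp Z.D Y.zk := Y.z_par
  obtain ⟨v, hv⟩ := hGEN Z.κ Z.n Z.D Y.c Y.zk Y.c_pos hz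
  obtain ⟨c1, -, -, c4, -, -, c7, c8, c9, -, c11, -⟩ := hCST Z Y
  obtain ⟨Q, p, hQ⟩ := hQMX Z (mS Z) (mQ Z) c1 c4 c9 fun y hy => c8 (c7 (c11 y hy))
  obtain ⟨hfin, hkil, ⟨k, hk⟩, hgr⟩ := hQQQ Z Y Q p hQ
  obtain ⟨E, _, _, ι, hE⟩ := hETX Z.κ Z.n Z.D Y.c Y.zk v hv Q hkil
  -- the annihilator
  set Ann : Ideal (Po Z.κ Z.n) := Module.annihilator (Po Z.κ Z.n) Q.M with hAnn
  have hmem : ∀ f : Po Z.κ Z.n, (∀ u : Q.M, f • u = 0) → f ∈ Ann := fun f hf =>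
    Module.mem_annihilator.2 hf
  have hIX : Z.D.IX ≤ Ann := fun f hf => hmem f fun u => hkil f (Ideal.mem_sup_left hf) u
  have hWk : VI Z.κ Z.D.W ^ k ≤ Ann := fun f hf => hmem f fun u => hk f hf u
  -- a coordinate
  obtain ⟨c, hcA, hcJ⟩ := Z.D.JA
  obtain ⟨m, G, hm, hG, hGσ, hGJ⟩ := Z.JJ_pow J hJ (fun c' => if c' = c then 1 else 0)
    (fun c' hc' => by
      by_cases h : c' = c
      · exact absurd (h ▸ hcA) hc'
      · simp [h])
  have hGσ' : MvPolynomial.map Z.σ G = (X c : Po Z.κ Z.n) ^ m := by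
    rw [hGσ]
    congr 1
    rw [Finset.sum_eq_single c]
    · simp
    · intro b _ hb
      simp [hb]
    · intro h
      exact absurd (Finset.mem_univ c) h
  have hxS : ∀ F : Po Z.V Z.n, aeval Z.x F ∈ Z.S := by
    intro F
    have h3 := (Algebra.adjoin_le (S := Z.S) (by rintro _ ⟨i, rfl⟩; exact Z.x_mem i) :
      Algebra.adjoin Z.V (Set.range Z.x) ≤ Z.S)
    apply h3
    rw [Algebra.adjoin_range_eq_range_aeval]
    exact ⟨F, rfl⟩
  have hXc : (X c : Po Z.κ Z.n) ^ m ∈ Ann := by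
    refine hmem _ fun u => ?_
    obtain ⟨y, rfl⟩ := hQ.surj u
    have hyS : (y : Z.B) ∈ Z.S := y.2
    have h1 : aeval Z.x G * (y : Z.B) ∈ mS Z := Z.S.mul_mem (hxS G) hyS
    have h2 := hQ.smul G y ⟨_, h1⟩ rfl
    rw [hGσ'] at h2
    rw [← h2, hQ.ker]
    refine ⟨aeval Z.x G * (y : Z.B), h1, Z.q.mul_mem_right _ (hJq m G hG hGJ), 0, Z.S.zero_mem, ?_⟩
    simp
  -- the ring of the surface
  set JX : Ideal (Po Z.κ Z.n) := Z.D.J'.comap (emb Z.κ Z.n) with hJX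
  haveI : Z.D.J'.IsPrime := Z.D.primeJ
  haveI hprime : JX.IsPrime := Ideal.IsPrime.comap _
  have hJXe : JX = Z.D.IX ⊔ VI Z.κ Z.D.W := Z.D.JX
  have haF : aF Z.D Y.c ≤ JX := by
    rw [hJXe]
    refine sup_le le_sup_left ?_
    rw [Ideal.span_singleton_le_iff_mem]
    refine Ideal.pow_mem_of_mem _ (Ideal.mem_sup_right ?_) _ Y.c_pos
    exact Ideal.subset_span ⟨Z.D.c₀, Z.D.c₀W, rfl⟩
  obtain ⟨T, hT⟩ := hZPC Z.κ Z.n Z.D Y.c Y.zk hz
  let φ : Po Z.κ 3 →+* Po Z.κ Z.n ⧸ JX :=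
    (Ideal.Quotient.mk JX).comp (aeval Y.zk : Po Z.κ 3 →ₐ[Z.κ] Po Z.κ Z.n).toRingHom
  have hφf : φ.Finite := by
    letI : Algebra (Po Z.κ 3) (Po Z.κ Z.n ⧸ JX) := φ.toAlgebra
    show Module.Finite (Po Z.κ 3) (Po Z.κ Z.n ⧸ JX)
    refine ⟨⟨T.image (Ideal.Quotient.mk JX), ?_⟩⟩
    rw [eq_top_iff]
    rintro u -
    obtain ⟨f, rfl⟩ := Ideal.Quotient.mk_surjective u
    obtain ⟨P, hP⟩ := hT f
    have h1 : Ideal.Quotient.mk JX f =
        Ideal.Quotient.mk JX (∑ t ∈ T, aeval Y.zk (P t) * t) :=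
      (Ideal.Quotient.mk_eq_mk_iff_sub_mem _ _).2 (haF hP)
    rw [h1, map_sum]
    refine Submodule.sum_mem _ fun t ht => ?_
    rw [map_mul]
    have h2 : Ideal.Quotient.mk JX (aeval Y.zk (P t)) * Ideal.Quotient.mk JX t =
        P t • Ideal.Quotient.mk JX t := rfl
    rw [h2]
    exact Submodule.smul_mem _ _ (Submodule.subset_span (Finset.mem_coe.2
      (Finset.mem_image_of_mem _ ht)))
  have hXne : Ideal.Quotient.mk JX (X c) ≠ 0 := by
    rw [Ne, Ideal.Quotient.eq_zero_iff_mem, hJX, Ideal.mem_comap]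
    simpa [emb] using hcJ
  obtain ⟨r, hr, b, hb⟩ := nn_const φ _ hXne (hφf.to_isIntegral _)
  obtain ⟨g, rfl⟩ := Ideal.Quotient.mk_surjective b
  have h7 : aeval Y.zk r - X c * g ∈ JX := by
    rw [← Ideal.Quotient.mk_eq_mk_iff_sub_mem, map_mul]
    exact hb
  have hrad : aeval Y.zk r ∈ Ann.radical := by
    have h8 : (X c : Po Z.κ Z.n) ∈ Ann.radical := ⟨m, hXc⟩
    have h9 : JX ≤ Ann.radical := by
      rw [hJXe]
      refine sup_le (hIX.trans Ideal.le_radical) fun f hf => ⟨k, hWk (Ideal.pow_mem_pow hf k)⟩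
    have h10 := Ideal.add_mem _ (h9 h7) (Ideal.mul_mem_right g _ h8)
    rwa [sub_add_cancel] at h10
  obtain ⟨M, hM⟩ := hrad
  rw [← map_pow] at hM
  have hrM : r ^ M ≠ 0 := pow_ne_zero _ hr
  -- the localisation is zero
  have hE0 : ∀ w : E, w = 0 := by
    intro w
    obtain ⟨s, hs, u, hu⟩ := hE.gen w
    have h11 : aeval Y.zk (r ^ M) • u = 0 := Module.mem_annihilator.1 hM u
    have h12 := hE.smul (aeval Y.zk (r ^ M)) u
    rw [h11, map_zero] at h12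
    have h13 := hE.inj (r ^ M) hrM (ι u) h12.symm
    rw [h13] at hu
    exact hE.inj s hs w hu
  have h14 : Z.δ ≤ rkw (fun i => emb Z.κ Z.n (Y.zk i)) E := by
    refine hZRK Z.κ Z.n Z.D Y.c Y.zk Y.c_pos hz Q hfin hkil E ι hE Z.δ ?_
    obtain ⟨C₀, hC⟩ := Z.q_grow
    refine ⟨C₀, fun m' => ?_⟩
    rw [hgr m']
    exact hC m'
  have h15 : rkw (fun i => emb Z.κ Z.n (Y.zk i)) E = 0 := by
    unfold rkw
    haveI : Subsingleton E := ⟨fun a b => by rw [hE0 a, hE0 b]⟩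
    letI : Module (Po Z.κ 3) E := Module.compHom E
      (aeval (fun i => emb Z.κ Z.n (Y.zk i)) : Po Z.κ 3 →ₐ[Z.κ] Po Z.κ (Z.n + 1)).toRingHom
    exact Module.finrank_zero_of_subsingleton
  omega

end

end Pool.Agent.FIN
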