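import Pool.Agent.FIN.Gro
import Pool.Agent.NRM.All
import Pool.Agent.TFR.All

/-!
# FIN: the counting part of the disproof, from the counts in the tubes
-/

set_option autoImplicit false

noncomputable section

namespace Pool.Agent.FIN

open scoped Classical
open MvPolynomial Pool.Agent.LibDb3ab1 Pool.Agent.DC Pool.Agent.FRM Pool.Agent.TFR Pool.Agent.RST

/-- the Hilbert polynomial of the exact prime of an exact surface -/
theorem hilbDeg (hTda : Stmt_Tda) (hTdb : Stmt_Tdb) {p : ℕ} [Fact p.Prime] {J : Type}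
    {E : Eqs p XV.N J} {S : ExactSurf E 2 {c | 1 ≤ (XV.pt c).w}} (Φ : FF S) [S.T.Q.IsPrime] :
    HilbDeg S.T.Q (DIS.deg S.Ka (Φ.ζ 1) (Φ.ζ 2)) := by
  have hsurf : SRF.IsSurf S.Ka (aeval Φ.ξ (S.za 1) : Φ.F) (aeval Φ.ξ (S.za 2)) := by
    rw [← Φ.ζ_eq, ← Φ.ζ_eq]
    exact Φ.surf
  have h2 := hTdb XV.N S.Ka S.Qa (S.geom _ _) (hom_map _ _ S.T.hom) (by
    rw [ExactSurf.Qa, dimf_proof S.M.K S.Ka _ (XV.N + 1) S.T.Q]
    exact S.T.dim) S.za (fun i => ((S.z_hom i).map _).map _) (int_a S) Φ.F Φ.ξ Φ.deh hsurf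
  rw [← Φ.ζ_eq, ← Φ.ζ_eq] at h2
  obtain ⟨B, hB⟩ := h2
  refine ⟨B, fun n => ?_⟩
  have h6 : hilb S.Qa n = hilb S.T.Q n := hTda XV.N S.M.K S.Ka _ S.T.Q n
  rw [← h6]
  exact hB n

/-- **The counting part**, from the existence of exact primes and the counts in the tubes. -/
theorem count_of_tub (hExact : Stmt_Exact) (hTub : Stmt_Tub) : DIS.Stmt_Count := by
  intro p _ J _ E hE M
  obtain ⟨S⟩ := tfm p XV.N 2 J E {c | 1 ≤ (XV.pt c).w} (dimE XV.spx hE (ZMod p)) M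
    (hExact p J E hE M)
  obtain ⟨Φ⟩ := ffa p XV.N J E _ S
  have := S.T.prime
  have hd := dvrs_a fdv fdc S
  have h1 := hilbDeg tda_proof (tdb_proof dzn) Φ
  obtain ⟨i₀, hi₀⟩ := NRM.exists_coord (d := 2) S.T.dim
  have h2 : FullV S.M.V S.T.Q :=
    ⟨_, h1, fullW hi₀ h1 fun s => hTub p J E hE S.M S.T s⟩
  exact ⟨toDis Φ hd, full_of_fullV (tjb_proof hie) tli_proof tda_proof (tdb_proof dzn) Φ hd h2⟩

end Pool.Agent.FIN
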