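import Pool.Agent.FIN.Defs

/-!
# FIN: the graded domain modulo `q` as a module over `K[x] / Q`
-/

set_option autoImplicit false

noncomputable section

namespace Pool.Agent.FIN

open scoped Classical
open MvPolynomial Pool.Agent.LibDb3ab1 Pool.Agent.DC Pool.Agent.FRM Pool.Agent.TFR Pool.Agent.RST

section

variable {N : ℕ} {K : Type} [Field K] {B : Type} [CommRing B] [Algebra K B]
  {ℬ : ℕ → Submodule K B} [GradedAlgebra ℬ] {φ : MvPolynomial (Fin (N + 1)) K →ₐ[K] B}
  {q : Ideal B} {Q : Ideal (MvPolynomial (Fin (N + 1)) K)}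

/-- the setting -/
structure Sg (ℬ : ℕ → Submodule K B) [GradedAlgebra ℬ] (φ : MvPolynomial (Fin (N + 1)) K →ₐ[K] B)
    (q : Ideal B) (Q : Ideal (MvPolynomial (Fin (N + 1)) K)) : Prop where
  deg : ∀ i, φ (X i) ∈ ℬ 1
  fin : ∃ T : Finset B, ∀ b : B, ∃ f : B → MvPolynomial (Fin (N + 1)) K, b = ∑ t ∈ T, φ (f t) * t
  prime : q.IsPrime
  hom : q.IsHomogeneous ℬ
  comap : ∀ g, φ g ∈ q ↔ g ∈ Q

/-- homogeneous polynomials -/
theorem φ_hom (hdeg : ∀ i, φ (X i) ∈ ℬ 1) {g : MvPolynomial (Fin (N + 1)) K} {k : ℕ}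
    (hg : g.IsHomogeneous k) : φ g ∈ ℬ k := by
  rw [g.as_sum, map_sum]
  refine Submodule.sum_mem _ fun d hd => ?_
  have h1 := hg (mem_support_iff.1 hd)
  rw [monomial_eq, map_mul, Finsupp.prod, map_prod]
  have h2 : φ (C (coeff d g)) = algebraMap K B (coeff d g) := φ.commutes _
  rw [h2, ← Algebra.smul_def]
  refine Submodule.smul_mem _ _ ?_
  have h3 : k = ∑ i ∈ d.support, d i • 1 := by
    rw [← h1, Finsupp.weight_apply, Finsupp.sum]
    simp
  rw [h3]
  refine SetLike.prod_mem_graded _ _ _ fun i _ => ?_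
  rw [map_pow]
  exact SetLike.pow_mem_graded _ (hdeg i)

theorem proj_φ (hdeg : ∀ i, φ (X i) ∈ ℬ 1) (g : MvPolynomial (Fin (N + 1)) K) (m : ℕ) :
    GradedRing.proj ℬ m (φ g) = φ (homogeneousComponent m g) := by
  conv_lhs => rw [← sum_homogeneousComponent g, map_sum, map_sum]
  have h1 : ∀ i, GradedRing.proj ℬ m (φ (homogeneousComponent i g)) =
      if i = m then φ (homogeneousComponent m g) else 0 := by
    intro i
    have h2 := φ_hom hdeg (homogeneousComponent_isHomogeneous i g)
    rw [GradedRing.proj_apply]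
    split_ifs with h
    · subst h
      rw [DirectSum.decompose_of_mem_same ℬ h2]
    · rw [DirectSum.decompose_of_mem_ne ℬ h2 h]
  rw [Finset.sum_congr rfl fun i _ => h1 i, Finset.sum_ite_eq']
  split_ifs with h
  · rfl
  · rw [homogeneousComponent_eq_zero, map_zero]
    rw [Finset.mem_range] at h
    omega

/-- the component of a product with a homogeneous element -/
theorem proj_mul_hom (hdeg : ∀ i, φ (X i) ∈ ℬ 1) (g : MvPolynomial (Fin (N + 1)) K) {w : B} {D : ℕ}
    (hw : w ∈ ℬ D) (m : ℕ) : GradedRing.proj ℬ (m + D) (φ g * w) =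
      φ (homogeneousComponent m g) * w := by
  rw [GradedRing.proj_apply, DirectSum.coe_decompose_mul_add_of_right_mem ℬ hw,
    ← GradedRing.proj_apply, proj_φ hdeg]

theorem proj_mul_hom' {w b : B} {D : ℕ} (hw : w ∈ ℬ D) {m : ℕ} (hm : m < D) :
    GradedRing.proj ℬ m (b * w) = 0 := by
  rw [GradedRing.proj_apply]
  exact DirectSum.coe_decompose_mul_of_right_mem_of_not_le ℬ hw (by omega)

variable (hS : Sg ℬ φ q Q)

include hS

theorem Q_prime : Q.IsPrime := by
  have h1 : Q = q.comap φ := by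
    ext g
    rw [Ideal.mem_comap, hS.comap]
  rw [h1]
  have := hS.prime
  exact Ideal.IsPrime.comap φ

theorem Q_hom : Homog Q := by
  intro g hg m
  rw [← hS.comap, ← proj_φ hS.deg]
  exact hS.hom m ((hS.comap g).2 hg)

/-- homogeneous generators -/
theorem exists_hgen : ∃ H : Finset B, (∀ t ∈ H, ∃ i, t ∈ ℬ i) ∧ ∀ b : B,
    ∃ f : B → MvPolynomial (Fin (N + 1)) K, b = ∑ t ∈ H, φ (f t) * t := by
  obtain ⟨T, hT⟩ := hS.fin
  let : Algebra (MvPolynomial (Fin (N + 1)) K) B :=
    (φ : MvPolynomial (Fin (N + 1)) K →+* B).toAlgebra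
  let H : Finset B := T.biUnion fun t =>
    (DirectSum.decompose ℬ t).support.image fun i => ((DirectSum.decompose ℬ t i : ℬ i) : B)
  refine ⟨H, ?_, ?_⟩
  · intro t ht
    simp only [H, Finset.mem_biUnion, Finset.mem_image] at ht
    obtain ⟨s, -, i, -, rfl⟩ := ht
    exact ⟨i, Subtype.mem _⟩
  · intro b
    have h1 : ∀ t ∈ T, t ∈ Submodule.span (MvPolynomial (Fin (N + 1)) K) (H : Set B) := by
      intro t ht
      rw [← DirectSum.sum_support_decompose ℬ t]
      refine Submodule.sum_mem _ fun i hi => Submodule.subset_span ?_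
      simp only [H, Finset.coe_biUnion, Set.mem_iUnion, Finset.mem_coe, Finset.mem_image]
      exact ⟨t, ht, i, hi, rfl⟩
    have h2 : b ∈ Submodule.span (MvPolynomial (Fin (N + 1)) K) (H : Set B) := by
      obtain ⟨f, hf⟩ := hT b
      rw [hf]
      refine Submodule.sum_mem _ fun t ht => ?_
      have h3 : φ (f t) * t = f t • t := (Algebra.smul_def (f t) t).symm
      rw [h3]
      exact Submodule.smul_mem _ _ (h1 t ht)
    obtain ⟨f, -, hf⟩ := Submodule.mem_span_finset.1 h2
    exact ⟨f, hf.symm.trans (Finset.sum_congr rfl fun t _ => Algebra.smul_def _ _)⟩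

/-- **A maximal independent family.** -/
theorem exists_max : ∃ (W : Finset B) (c : MvPolynomial (Fin (N + 1)) K), c ∉ Q ∧
    (∀ t ∈ W, ∃ i, t ∈ ℬ i) ∧
    (∀ f : B → MvPolynomial (Fin (N + 1)) K, ∑ t ∈ W, φ (f t) * t ∈ q → ∀ t ∈ W, f t ∈ Q) ∧
    ∀ b : B, ∃ f : B → MvPolynomial (Fin (N + 1)) K, φ c * b - ∑ t ∈ W, φ (f t) * t ∈ q := by
  obtain ⟨H, hH, hgen⟩ := exists_hgen hS
  have hQ := Q_prime hS
  have hq := hS.prime
  let IndF : Finset B → Prop := fun W => ∀ f : B → MvPolynomial (Fin (N + 1)) K,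
    ∑ t ∈ W, φ (f t) * t ∈ q → ∀ t ∈ W, f t ∈ Q
  obtain ⟨W, hW, hmax⟩ := (H.powerset.filter IndF).exists_max_image Finset.card
    ⟨∅, by
      rw [Finset.mem_filter]
      exact ⟨Finset.empty_mem_powerset H, fun f _ t ht => absurd ht (Finset.notMem_empty t)⟩⟩
  rw [Finset.mem_filter, Finset.mem_powerset] at hW
  obtain ⟨hWH, hWI⟩ := hW
  -- every generator has a multiple in the span
  have h1 : ∀ t ∈ H, ∃ c, c ∉ Q ∧ ∃ f : B → MvPolynomial (Fin (N + 1)) K,
      φ c * t - ∑ w ∈ W, φ (f w) * w ∈ q := by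
    intro t ht
    by_cases htW : t ∈ W
    · refine ⟨1, fun h => hQ.ne_top (Q.eq_top_iff_one.2 h), fun w => if w = t then 1 else 0, ?_⟩
      have h2 : ∑ w ∈ W, φ (if w = t then (1 : MvPolynomial (Fin (N + 1)) K) else 0) * w = t := by
        rw [Finset.sum_eq_single t]
        · rw [if_pos rfl, map_one, one_mul]
        · intro w _ hw
          rw [if_neg hw, map_zero, zero_mul]
        · exact fun h => absurd htW h
      rw [h2, map_one, one_mul, sub_self]
      exact q.zero_mem
    · have h2 : ¬IndF (insert t W) := by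
        intro h3
        have h4 := hmax (insert t W) (by
          rw [Finset.mem_filter, Finset.mem_powerset]
          exact ⟨Finset.insert_subset ht hWH, h3⟩)
        rw [Finset.card_insert_of_notMem htW] at h4
        omega
      simp only [IndF] at h2
      push Not at h2
      obtain ⟨f, hf, s, hs, hsQ⟩ := h2
      rw [Finset.sum_insert htW] at hf
      have h3 : f t ∉ Q := by
        intro h4
        have h5 : ∑ w ∈ W, φ (f w) * w ∈ q := by
          have h6 := q.sub_mem hf (q.mul_mem_right t ((hS.comap _).2 h4))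
          rwa [add_sub_cancel_left] at h6
        rcases Finset.mem_insert.1 hs with rfl | hs
        · exact hsQ h4
        · exact hsQ (hWI f h5 s hs)
      refine ⟨f t, h3, fun w => -f w, ?_⟩
      have h4 : φ (f t) * t - ∑ w ∈ W, φ (-f w) * w = φ (f t) * t + ∑ w ∈ W, φ (f w) * w := by
        simp only [map_neg, neg_mul, Finset.sum_neg_distrib, sub_neg_eq_add]
      rw [h4]
      exact hf
  choose! c hc f hf using h1
  refine ⟨W, ∏ t ∈ H, c t, ?_, fun t ht => hH t (hWH ht), hWI, ?_⟩
  · intro h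
    obtain ⟨t, ht, h2⟩ := (hQ.prod_mem_iff).1 h
    exact hc t ht h2
  · intro b
    obtain ⟨g, hg⟩ := hgen b
    -- the multiples of the generators
    have h2 : ∀ t ∈ H, ∃ f' : B → MvPolynomial (Fin (N + 1)) K,
        φ (∏ s ∈ H, c s) * (φ (g t) * t) - ∑ w ∈ W, φ (f' w) * w ∈ q := by
      intro t ht
      refine ⟨fun w => (∏ s ∈ H.erase t, c s) * g t * f t w, ?_⟩
      have h3 : φ (∏ s ∈ H, c s) * (φ (g t) * t) -
          ∑ w ∈ W, φ ((∏ s ∈ H.erase t, c s) * g t * f t w) * w =
          φ ((∏ s ∈ H.erase t, c s) * g t) * (φ (c t) * t - ∑ w ∈ W, φ (f t w) * w) := by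
        rw [← Finset.mul_prod_erase H c ht, mul_sub, Finset.mul_sum]
        congr 1
        · simp only [map_mul]
          ring
        · refine Finset.sum_congr rfl fun w _ => ?_
          rw [map_mul φ (_ * g t)]
          ring
      rw [h3]
      exact q.mul_mem_left _ (hf t ht)
    choose! f' hf' using h2
    refine ⟨fun w => ∑ t ∈ H, f' t w, ?_⟩
    have h3 : φ (∏ s ∈ H, c s) * b - ∑ w ∈ W, φ (∑ t ∈ H, f' t w) * w =
        ∑ t ∈ H, (φ (∏ s ∈ H, c s) * (φ (g t) * t) - ∑ w ∈ W, φ (f' t w) * w) := by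
      rw [Finset.sum_sub_distrib, ← Finset.mul_sum, ← hg, Finset.sum_comm]
      congr 1
      refine Finset.sum_congr rfl fun w _ => ?_
      rw [map_sum, Finset.sum_mul]
    rw [h3]
    exact q.sum_mem fun t ht => hf' t ht

/-- **Homogeneous elements of the same degree**, a basis modulo `q` up to a denominator. -/
theorem exists_basis {i₀ : Fin (N + 1)} (hi₀ : X i₀ ∉ Q) :
    ∃ (r D m : ℕ) (ω : Fin r → B) (c : MvPolynomial (Fin (N + 1)) K), 0 < r ∧ (∀ l, ω l ∈ ℬ D) ∧
      (∀ f : Fin r → MvPolynomial (Fin (N + 1)) K, ∑ l, φ (f l) * ω l ∈ q → ∀ l, f l ∈ Q) ∧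
      c.IsHomogeneous (m + D) ∧ c ∉ Q ∧ ∀ i, ∀ b ∈ ℬ i,
        ∃ f : Fin r → MvPolynomial (Fin (N + 1)) K, (∀ l, (f l).IsHomogeneous (m + i)) ∧
          φ c * b - ∑ l, φ (f l) * ω l ∈ q := by
  obtain ⟨W, c, hc, hWh, hWI, hgen⟩ := exists_max hS
  have hQ := Q_prime hS
  have hq := hS.prime
  choose! d hd using hWh
  -- the enumeration
  let r := W.card
  let ew := W.equivFin
  let D := W.sup d
  have hD : ∀ t ∈ W, d t ≤ D := fun t ht => Finset.le_sup ht
  let y : MvPolynomial (Fin (N + 1)) K := X i₀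
  have hy : ∀ n : ℕ, y ^ n ∉ Q := fun n h => hi₀ (hQ.mem_of_pow_mem n h)
  have hyh : ∀ n : ℕ, (y ^ n).IsHomogeneous n := fun n => by
    have := (isHomogeneous_X K i₀).pow n
    rwa [one_mul] at this
  let ω : Fin r → B := fun l => φ (y ^ (D - d (ew.symm l))) * (ew.symm l : B)
  have hω : ∀ l, ω l ∈ ℬ D := by
    intro l
    have h1 := SetLike.mul_mem_graded (φ_hom hS.deg (hyh (D - d (ew.symm l))))
      (hd _ (ew.symm l).2)
    rwa [Nat.sub_add_cancel (hD _ (ew.symm l).2)] at h1
  -- independence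
  have hind : ∀ f : Fin r → MvPolynomial (Fin (N + 1)) K, ∑ l, φ (f l) * ω l ∈ q →
      ∀ l, f l ∈ Q := by
    intro f hf l
    let g : B → MvPolynomial (Fin (N + 1)) K := fun t =>
      if h : t ∈ W then f (ew ⟨t, h⟩) * y ^ (D - d t) else 0
    have h1 : ∑ t ∈ W, φ (g t) * t ∈ q := by
      have h2 : ∑ t ∈ W, φ (g t) * t = ∑ l, φ (f l) * ω l := by
        rw [← Finset.sum_coe_sort W, ← ew.symm.sum_comp]
        refine Finset.sum_congr rfl fun l _ => ?_
        simp only [g, ω]
        rw [dif_pos (ew.symm l).2, map_mul, Subtype.coe_eta, Equiv.apply_symm_apply]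
        ring
      rw [h2]
      exact hf
    have h2 := hWI g h1 (ew.symm l) (ew.symm l).2
    simp only [g] at h2
    rw [dif_pos (ew.symm l).2, Subtype.coe_eta, Equiv.apply_symm_apply] at h2
    exact (hQ.mem_or_mem h2).resolve_right (hy _)
  -- generation
  have hgen' : ∀ b : B, ∃ f : Fin r → MvPolynomial (Fin (N + 1)) K,
      φ (c * y ^ D) * b - ∑ l, φ (f l) * ω l ∈ q := by
    intro b
    obtain ⟨g, hg⟩ := hgen b
    refine ⟨fun l => g (ew.symm l) * y ^ (d (ew.symm l)), ?_⟩
    have h1 : φ (c * y ^ D) * b - ∑ l, φ (g (ew.symm l) * y ^ (d (ew.symm l))) * ω l =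
        φ (y ^ D) * (φ c * b - ∑ t ∈ W, φ (g t) * t) := by
      rw [mul_sub, Finset.mul_sum, ← Finset.sum_coe_sort W (fun t => φ (y ^ D) * (φ (g t) * t)),
        ← ew.symm.sum_comp]
      congr 1
      · rw [map_mul]
        ring
      · refine Finset.sum_congr rfl fun l _ => ?_
        simp only [ω]
        have h2 : y ^ D = y ^ (d (ew.symm l : B)) * y ^ (D - d (ew.symm l)) := by
          rw [← pow_add, Nat.add_sub_cancel' (hD _ (ew.symm l).2)]
        rw [h2, map_mul, map_mul]
        ring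
    rw [h1]
    exact q.mul_mem_left _ hg
  -- a homogeneous component of the denominator
  have h1 : ∃ m, homogeneousComponent m c ∉ Q := by
    by_contra h
    push Not at h
    apply hc
    rw [← sum_homogeneousComponent c]
    exact Q.sum_mem fun m _ => h m
  obtain ⟨m, hm⟩ := h1
  refine ⟨r, D, m, ω, homogeneousComponent m c * y ^ D, ?_, hω, hind,
    (homogeneousComponent_isHomogeneous m c).mul (hyh D), ?_, ?_⟩
  · by_contra h0
    have h2 : r = 0 := by omega
    obtain ⟨f, hf⟩ := hgen' 1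
    have : IsEmpty (Fin r) := by rw [h2]; infer_instance
    rw [Finset.univ_eq_empty, Finset.sum_empty, sub_zero, mul_one, hS.comap] at hf
    rcases hQ.mem_or_mem hf with h | h
    · exact hc h
    · exact hy _ h
  · intro h
    rcases hQ.mem_or_mem h with h | h
    · exact hm h
    · exact hy _ h
  · intro i b hb
    obtain ⟨g, hg⟩ := hgen b
    have h2 : ∀ k, ∀ t ∈ W, GradedRing.proj ℬ k (φ (g t) * t) =
        φ (if d t ≤ k then homogeneousComponent (k - d t) (g t) else 0) * t := by
      intro k t ht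
      split_ifs with h
      · obtain ⟨j, rfl⟩ := Nat.exists_eq_add_of_le' h
        rw [proj_mul_hom hS.deg _ (hd t ht), Nat.add_sub_cancel]
      · rw [proj_mul_hom' (hd t ht) (by omega), map_zero, zero_mul]
    have h3 := hS.hom (m + i) hg
    rw [← GradedRing.proj_apply, map_sub, proj_mul_hom hS.deg c hb, map_sum,
      Finset.sum_congr rfl fun t ht => h2 (m + i) t ht] at h3
    refine ⟨fun l => (if d (ew.symm l) ≤ m + i then
      homogeneousComponent (m + i - d (ew.symm l)) (g (ew.symm l)) else 0) *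
        y ^ (d (ew.symm l)), ?_, ?_⟩
    · intro l
      dsimp only
      split_ifs with h
      · have h4 := (homogeneousComponent_isHomogeneous (m + i - d (ew.symm l))
          (g (ew.symm l))).mul (hyh (d (ew.symm l : B)))
        rwa [Nat.sub_add_cancel h] at h4
      · rw [zero_mul]
        exact isHomogeneous_zero _ _ _
    · have h4 : φ (homogeneousComponent m c * y ^ D) * b - ∑ l, φ ((if d (ew.symm l) ≤ m + i then
          homogeneousComponent (m + i - d (ew.symm l)) (g (ew.symm l)) else 0) *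
          y ^ (d (ew.symm l))) * ω l =
          φ (y ^ D) * (φ (homogeneousComponent m c) * b - ∑ t ∈ W,
            φ (if d t ≤ m + i then homogeneousComponent (m + i - d t) (g t) else 0) * t) := by
        rw [mul_sub, Finset.mul_sum, ← Finset.sum_coe_sort W (fun t => φ (y ^ D) *
          (φ (if d t ≤ m + i then homogeneousComponent (m + i - d t) (g t) else 0) * t)),
          ← ew.symm.sum_comp]
        congr 1
        · rw [map_mul]
          ring
        · refine Finset.sum_congr rfl fun l _ => ?_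
          simp only [ω]
          have h2 : y ^ D = y ^ (d (ew.symm l : B)) * y ^ (D - d (ew.symm l)) := by
            rw [← pow_add, Nat.add_sub_cancel' (hD _ (ew.symm l).2)]
          rw [h2, map_mul, map_mul]
          ring
      rw [h4]
      exact q.mul_mem_left _ h3

end

end Pool.Agent.FIN
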