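import Pool.Agent.FIN.Res

/-!
# FIN: the growth of the graded domain modulo `q`, and the full counts
-/

set_option autoImplicit false

noncomputable section

namespace Pool.Agent.FIN

open scoped Classical
open MvPolynomial Pool.Agent.LibDb3ab1 Pool.Agent.DC Pool.Agent.FRM Pool.Agent.TFR Pool.Agent.RST

section

variable {N : ℕ} {K : Type} [Field K] {B : Type} [CommRing B] [Algebra K B]
  {ℬ : ℕ → Submodule K B} [GradedAlgebra ℬ] {φ : MvPolynomial (Fin (N + 1)) K →ₐ[K] B}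
  {q : Ideal B} {Q : Ideal (MvPolynomial (Fin (N + 1)) K)} (hS : Sg ℬ φ q Q)

include hS

/-- the homogeneous components are finite dimensional -/
theorem fin_comp (m : ℕ) : Module.Finite K (ℬ m) := by
  obtain ⟨H, hH, hgen⟩ := exists_hgen hS
  choose! d hd using hH
  have hle : ℬ m ≤ ⨆ t ∈ H, (homogeneousSubmodule (Fin (N + 1)) K (m - d t)).map
      (((LinearMap.mulRight K t).comp φ.toLinearMap)) := by
    intro b hb
    obtain ⟨f, hf⟩ := hgen b
    have h1 : GradedRing.proj ℬ m b = b := by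
      rw [GradedRing.proj_apply, DirectSum.decompose_of_mem_same ℬ hb]
    rw [← h1, hf, map_sum]
    refine Submodule.sum_mem _ fun t ht => ?_
    by_cases h : d t ≤ m
    · obtain ⟨j, hj⟩ := Nat.exists_eq_add_of_le' h
      rw [hj, proj_mul_hom hS.deg _ (hd t ht)]
      refine Submodule.mem_iSup_of_mem t (Submodule.mem_iSup_of_mem ht ?_)
      refine ⟨homogeneousComponent j (f t), ?_, rfl⟩
      have h2 : j + d t - d t = j := by omega
      rw [h2]
      exact homogeneousComponent_isHomogeneous j (f t)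
    · rw [proj_mul_hom' (hd t ht) (by omega)]
      exact Submodule.zero_mem _
  have hfin : Module.Finite K ↥(⨆ t ∈ H, (homogeneousSubmodule (Fin (N + 1)) K (m - d t)).map
      (((LinearMap.mulRight K t).comp φ.toLinearMap))) := by
    refine Module.Finite.iff_fg.2 (Submodule.fg_biSup H _ fun t _ => ?_)
    exact (homogeneousSubmodule_fg (Fin (N + 1)) K _).map _
  exact Submodule.finiteDimensional_of_le hle

/-- dimensions in degree `m` -/
theorem le_dim {r D : ℕ} {ω : Fin r → B} (hω : ∀ l, ω l ∈ ℬ D)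
    (hind : ∀ f : Fin r → MvPolynomial (Fin (N + 1)) K, ∑ l, φ (f l) * ω l ∈ q →
      ∀ l, f l ∈ Q) (m : ℕ) :
    r * hilb Q m ≤ Module.finrank K ((ℬ (m + D)).map (Ideal.Quotient.mkₐ K q).toLinearMap) := by
  have hf1 := fin_comp hS (m + D)
  have hf2 : Module.Finite K ((ℬ (m + D)).map (Ideal.Quotient.mkₐ K q).toLinearMap) :=
    Module.Finite.map _ _
  have hf3 : Module.Finite K ((homogeneousSubmodule (Fin (N + 1)) K m).map
      (Ideal.Quotient.mkₐ K Q).toLinearMap) :=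
    Module.Finite.iff_fg.2 ((homogeneousSubmodule_fg (Fin (N + 1)) K m).map _)
  -- a basis of the component of `K[x] / Q`
  let bb := Module.finBasis K ((homogeneousSubmodule (Fin (N + 1)) K m).map
    (Ideal.Quotient.mkₐ K Q).toLinearMap)
  choose G hG hGb using fun i => (bb i).2
  let v : Fin r × Fin (hilb Q m) →
      (ℬ (m + D)).map (Ideal.Quotient.mkₐ K q).toLinearMap := fun x =>
    ⟨Ideal.Quotient.mk q (φ (G x.2) * ω x.1), φ (G x.2) * ω x.1,
      SetLike.mul_mem_graded (φ_hom hS.deg (hG x.2)) (hω x.1), rfl⟩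
  have hv : LinearIndependent K v := by
    rw [Fintype.linearIndependent_iff]
    intro a ha x
    have h1 : ∑ l, φ (∑ i, C (a (l, i)) * G i) * ω l ∈ q := by
      rw [← Ideal.Quotient.eq_zero_iff_mem]
      have h2 := congrArg Subtype.val ha
      rw [AddSubmonoidClass.coe_finsetSum, Fintype.sum_prod_type] at h2
      rw [map_sum]
      refine Eq.trans (Finset.sum_congr rfl fun l _ => ?_) h2
      rw [map_sum, Finset.sum_mul, map_sum]
      refine Finset.sum_congr rfl fun i _ => ?_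
      have h3 : φ (C (a (l, i))) = algebraMap K B (a (l, i)) := φ.commutes _
      rw [map_mul φ, h3, mul_assoc, ← Algebra.smul_def]
      rfl
    have h2 := hind _ h1 x.1
    have h3 : ∑ i, a (x.1, i) • bb i = 0 := by
      apply Subtype.ext
      rw [AddSubmonoidClass.coe_finsetSum]
      have h4 : Ideal.Quotient.mk Q (∑ i, C (a (x.1, i)) * G i) = 0 :=
        Ideal.Quotient.eq_zero_iff_mem.2 h2
      rw [map_sum] at h4
      refine Eq.trans (Finset.sum_congr rfl fun i _ => ?_) h4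
      rw [← smul_eq_C_mul]
      change a (x.1, i) • ((bb i : _) : MvPolynomial (Fin (N + 1)) K ⧸ Q) = _
      rw [← hGb i]
      rfl
    exact Fintype.linearIndependent_iff.1 bb.linearIndependent (fun i => a (x.1, i)) h3 x.2
  have h1 := hv.fintype_card_le_finrank
  rwa [Fintype.card_prod, Fintype.card_fin, Fintype.card_fin] at h1

/-- the growth -/
theorem grow {r D : ℕ} {ω : Fin r → B} (hω : ∀ l, ω l ∈ ℬ D)
    (hind : ∀ f : Fin r → MvPolynomial (Fin (N + 1)) K, ∑ l, φ (f l) * ω l ∈ q →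
      ∀ l, f l ∈ Q) {δ : ℕ} (hδ : HilbDeg Q δ) : Grow ℬ q (r * δ) := by
  obtain ⟨C₀, hC₀⟩ := hδ
  obtain ⟨C₁, hC₁⟩ := exists_nat_ge (C₀ : ℝ)
  refine ⟨r * δ * D ^ 2 + r * C₁ + r * δ * (D + 1), fun m => ?_⟩
  by_cases hm : m < D
  · have h1 : ((r * δ : ℕ) : ℚ) * (m : ℚ) ^ 2 / 2 ≤ (r * δ * D ^ 2 : ℕ) * ((m : ℚ) + 1) := by
      have h2 : (m : ℚ) ^ 2 ≤ (D : ℚ) ^ 2 := by
        have h3 : (m : ℚ) ≤ D := by exact_mod_cast hm.le
        exact pow_le_pow_left₀ (by positivity) h3 2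
      have h4 : (0 : ℚ) ≤ (r * δ : ℕ) := Nat.cast_nonneg _
      have h5 : (0 : ℚ) ≤ m := Nat.cast_nonneg _
      push_cast at h4 ⊢
      have h6 := mul_le_mul_of_nonneg_left h2 h4
      have h7 : (0 : ℚ) ≤ (r : ℚ) * δ * (D : ℚ) ^ 2 := by positivity
      nlinarith [mul_nonneg h7 h5]
    have h2 : (0 : ℚ) ≤ Module.finrank K ((ℬ m).map (Ideal.Quotient.mkₐ K q).toLinearMap) :=
      Nat.cast_nonneg _
    have h3 : (0 : ℚ) ≤ ((r * C₁ + r * δ * (D + 1) : ℕ) : ℚ) * ((m : ℚ) + 1) := by positivity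
    push_cast at h1 h3 ⊢
    nlinarith
  · obtain ⟨n, rfl⟩ := Nat.exists_eq_add_of_le' (not_lt.1 hm)
    have h1 := le_dim hS hω hind n
    have h2 := (abs_le.1 (hC₀ n)).1
    have h3 : (δ : ℚ) * n ^ 2 / 2 - C₁ * ((n : ℚ) + 1) ≤ hilb Q n := by
      have h4 : (δ : ℝ) * n ^ 2 / 2 - C₁ * ((n : ℝ) + 1) ≤ hilb Q n := by
        have h5 : (C₀ : ℝ) * ((n : ℝ) + 1) ≤ C₁ * ((n : ℝ) + 1) :=
          mul_le_mul_of_nonneg_right hC₁ (by positivity)
        linarith
      rw [← Rat.cast_le (K := ℝ)]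
      push_cast
      exact h4
    have h4 : (r : ℚ) * hilb Q n ≤
        Module.finrank K ((ℬ (n + D)).map (Ideal.Quotient.mkₐ K q).toLinearMap) := by
      exact_mod_cast h1
    have hr : (0 : ℚ) ≤ r := Nat.cast_nonneg _
    have h5 := mul_le_mul_of_nonneg_left h3 hr
    have hn : (0 : ℚ) ≤ n := Nat.cast_nonneg _
    have hD : (0 : ℚ) ≤ D := Nat.cast_nonneg _
    have hδ0 : (0 : ℚ) ≤ δ := Nat.cast_nonneg _
    have hC0 : (0 : ℚ) ≤ C₁ := Nat.cast_nonneg _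
    have h6 : (0 : ℚ) ≤ r * δ := mul_nonneg hr hδ0
    have h7 : (0 : ℚ) ≤ r * C₁ := mul_nonneg hr hC0
    push_cast
    have key : (r : ℚ) * δ * (n + D) ^ 2 / 2 ≤ r * (δ * n ^ 2 / 2 - C₁ * (n + 1)) +
        (r * δ * D ^ 2 + r * C₁ + r * δ * (D + 1)) * (n + D + 1) := by
      have e1 : (r : ℚ) * δ * (n + D) ^ 2 / 2 =
          r * (δ * n ^ 2 / 2) + r * δ * (n * D) + r * δ * D ^ 2 / 2 := by ring
      have e2 : (r : ℚ) * δ * (n * D) ≤ r * δ * (D + 1) * (n + D + 1) := by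
        have : (n : ℚ) * D ≤ (D + 1) * (n + D + 1) := by nlinarith
        calc (r : ℚ) * δ * (n * D) ≤ r * δ * ((D + 1) * (n + D + 1)) :=
              mul_le_mul_of_nonneg_left this h6
          _ = _ := by ring
      have e3 : (r : ℚ) * δ * D ^ 2 / 2 ≤ r * δ * D ^ 2 * (n + D + 1) := by
        have h8 : (0 : ℚ) ≤ r * δ * D ^ 2 := by positivity
        nlinarith [mul_nonneg h8 (add_nonneg hn hD)]
      have e4 : (r : ℚ) * C₁ * (n + 1) ≤ r * C₁ * (n + D + 1) :=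
        mul_le_mul_of_nonneg_left (by linarith) h7
      nlinarith
    linarith

end

/-- arithmetic of the shift -/
theorem shift {a ε : ℝ} (hε : 0 < ε) (e : ℕ) : ∃ n₀ : ℕ, ∀ n : ℕ, n₀ ≤ n →
    (a - ε) * ((n + e : ℕ) : ℝ) ^ 2 ≤ (a - ε / 2) * (n : ℝ) ^ 2 := by
  obtain ⟨n₀, hn₀⟩ := exists_nat_gt ((2 * |a - ε| * (2 * e + e ^ 2)) / ε + 1)
  refine ⟨n₀, fun n hn => ?_⟩
  have h1 : (2 * |a - ε| * (2 * e + e ^ 2)) / ε + 1 < n := hn₀.trans_le (by exact_mod_cast hn)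
  have h2 : (1 : ℝ) ≤ n := by
    have : 0 ≤ (2 * |a - ε| * (2 * e + e ^ 2)) / ε := by positivity
    linarith
  have h3 : 2 * |a - ε| * (2 * e + e ^ 2) ≤ ε * n := by
    have h4 : (2 * |a - ε| * (2 * e + e ^ 2)) / ε < n := by linarith
    rw [div_lt_iff₀ hε] at h4
    linarith
  push_cast
  have he : (0 : ℝ) ≤ e := Nat.cast_nonneg _
  have h5 : (a - ε) * (2 * n * e + e ^ 2) ≤ |a - ε| * (2 * n * e + e ^ 2) :=
    mul_le_mul_of_nonneg_right (le_abs_self _) (by positivity)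
  have h6 : |a - ε| * (2 * n * e + (e : ℝ) ^ 2) ≤ |a - ε| * (2 * e + e ^ 2) * n := by
    have h7 : (e : ℝ) ^ 2 ≤ e ^ 2 * n := by nlinarith [sq_nonneg (e : ℝ)]
    have h8 : 2 * n * e + (e : ℝ) ^ 2 ≤ (2 * e + e ^ 2) * n := by nlinarith
    calc _ ≤ |a - ε| * ((2 * e + e ^ 2) * n) := mul_le_mul_of_nonneg_left h8 (abs_nonneg _)
      _ = _ := by ring
  nlinarith

/-- **The full counts from the tubes.** -/
theorem fullW {K : Type} [Field K] {V : ValuationSubring K}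
    {Q : Ideal (MvPolynomial (Fin (XV.N + 1)) K)} [Q.IsPrime] {i₀ : Fin (XV.N + 1)}
    (hi₀ : X i₀ ∉ Q) {δ : ℕ} (hδ : HilbDeg Q δ)
    (hT : ∀ s : Fin 10, Nonempty (Tub V Q {c | 1 ≤ (XV.pt c).e s})) : FullW V Q δ := by
  intro s ε hε
  rcases Nat.eq_zero_or_pos δ with rfl | hδ0
  · refine ⟨0, fun n _ => ⟨0, 0, 1, Fin.elim0, isHomogeneous_one _ _, ?_, fun i => i.elim0,
      linearIndependent_empty_type, fun i => i.elim0, ?_⟩⟩
    · intro h
      exact Ideal.IsPrime.ne_top (I := Q) inferInstance (Q.eq_top_iff_one.2 h)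
    · push_cast
      nlinarith [sq_nonneg (n : ℝ)]
  obtain ⟨T⟩ := hT s
  obtain ⟨r, D, m, ω, c, hr, hω, hind, -, hcQ, hgen⟩ := exists_basis T.sg hi₀
  have hg := grow T.sg hω hind hδ
  have hrδ : 0 < r * δ := Nat.mul_pos hr hδ0
  obtain ⟨m₀, hm₀⟩ := T.cnt (r * δ) hrδ hg (ε / 2) (by positivity)
  obtain ⟨n₀, hn₀⟩ := shift (a := (3 / 5 : ℝ) * δ) hε m
  refine ⟨m₀ + n₀ + m, fun n hn => ?_⟩
  obtain ⟨n', rfl⟩ := Nat.exists_eq_add_of_le' (show m ≤ n by omega)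
  obtain ⟨k, m', G₀, G, h1, h2, h3, h4, h5, h6⟩ :=
    restrict T hr hind hcQ hgen (fun J hJ => T.JJ_q _ hrδ hg J hJ) n'
  refine ⟨k, m', G₀, G, h1, h2, h3, h4, h5, ?_⟩
  refine (hn₀ n' (by omega)).trans ?_
  have h7 := hm₀ n' (by omega)
  have h8 : (Module.finrank K (WP (L := T.L) T.ℬ T.JJ T.JJ_ne T.JJ_mul ⊤ n') : ℝ) -
      Module.finrank K (WP (L := T.L) T.ℬ T.JJ T.JJ_ne T.JJ_mul T.q n') ≤ r * m' := by
    rw [sub_le_iff_le_add]
    have h9 : Module.finrank K (WP (L := T.L) T.ℬ T.JJ T.JJ_ne T.JJ_mul ⊤ n') ≤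
        r * m' + Module.finrank K (WP (L := T.L) T.ℬ T.JJ T.JJ_ne T.JJ_mul T.q n') := by omega
    exact_mod_cast h9
  have hr1 : (1 : ℝ) ≤ r := by exact_mod_cast hr
  have h9 : (r : ℝ) * (((3 / 5 : ℝ) * δ - ε / 2) * n' ^ 2) ≤ r * m' := by
    refine le_trans ?_ (h7.trans h8)
    push_cast
    have h10 : (0 : ℝ) ≤ (n' : ℝ) ^ 2 := by positivity
    have h11 : (0 : ℝ) ≤ ε / 2 * (n' : ℝ) ^ 2 := by positivity
    nlinarith
  exact le_of_mul_le_mul_left h9 (by linarith)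

end Pool.Agent.FIN
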