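import Pool.Agent.FIN.Alg

/-!
# FIN: restriction of the sections to `q` and descent to `K[x] / Q`
-/

set_option autoImplicit false

noncomputable section

namespace Pool.Agent.FIN

open scoped Classical
open MvPolynomial Pool.Agent.LibDb3ab1 Pool.Agent.DC Pool.Agent.FRM Pool.Agent.TFR Pool.Agent.RST

/-- a basis of the quotient of two subspaces -/
theorem exists_fam {K L : Type} [Field K] [AddCommGroup L] [Module K L] {U W : Submodule K L}
    (hUW : U ≤ W) (hW : Module.Finite K W) :
    ∃ b : Fin (Module.finrank K W - Module.finrank K U) → L, (∀ i, b i ∈ W) ∧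
      ∀ a : Fin (Module.finrank K W - Module.finrank K U) → K, ∑ i, a i • b i ∈ U → a = 0 := by
  let U' : Submodule K W := U.comap W.subtype
  have h1 : Module.finrank K U' = Module.finrank K U :=
    (Submodule.comapSubtypeEquivOfLe hUW).finrank_eq
  have h2 : Module.finrank K (W ⧸ U') = Module.finrank K W - Module.finrank K U := by
    have := Submodule.finrank_quotient_add_finrank U'
    omega
  rw [← h2]
  let bb := Module.finBasis K (W ⧸ U')
  choose w hw using fun i => Submodule.Quotient.mk_surjective U' (bb i)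
  refine ⟨fun i => w i, fun i => (w i).2, fun a ha => ?_⟩
  have h3 : ∑ i, a i • w i ∈ U' := by
    rw [Submodule.mem_comap, map_sum]
    exact ha
  have h4 : ∑ i, a i • bb i = 0 := by
    rw [← (Submodule.Quotient.mk_eq_zero U').2 h3, ← Submodule.mkQ_apply, map_sum]
    refine Finset.sum_congr rfl fun i _ => ?_
    rw [map_smul, Submodule.mkQ_apply, hw]
  funext i
  exact Fintype.linearIndependent_iff.1 bb.linearIndependent a h4 i

/-- a large independent subfamily in one of `r` components -/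
theorem exists_comp {K E : Type} [Field K] [AddCommGroup E] [Module K E] {r M : ℕ} (hr : 0 < r)
    (v : Fin M → Fin r → E) (hv : ∀ a : Fin M → K, (∀ l, ∑ i, a i • v i l = 0) → a = 0) :
    ∃ (l : Fin r) (m : ℕ) (s : Fin m → Fin M), LinearIndependent K (fun i => v (s i) l) ∧
      M ≤ r * m := by
  let V : Fin r → Submodule K E := fun l => Submodule.span K (Set.range fun i => v i l)
  have hfin : ∀ l, Module.Finite K (V l) := fun l => by
    have := FiniteDimensional.span_of_finite K (Set.finite_range fun i => v i l)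
    exact this
  have h1 : M ≤ ∑ l, Module.finrank K (V l) := by
    let Θ : (Fin M → K) →ₗ[K] (∀ l, V l) := LinearMap.pi fun l =>
      (Fintype.linearCombination K (fun i => v i l)).codRestrict (V l) (by
        intro a
        rw [Fintype.linearCombination_apply]
        exact Submodule.sum_mem _ fun i _ => Submodule.smul_mem _ _ (Submodule.subset_span ⟨i, rfl⟩))
    have hΘ : Function.Injective Θ := by
      rw [injective_iff_map_eq_zero]
      intro a ha
      apply hv a
      intro l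
      have h2 := congrArg Subtype.val (congrFun ha l)
      rw [← Fintype.linearCombination_apply]
      exact h2
    have h2 := LinearMap.finrank_le_finrank_of_injective hΘ
    rwa [Module.finrank_fin_fun, Module.finrank_pi_fintype] at h2
  have h2 : ∃ l, M ≤ r * Module.finrank K (V l) := by
    by_contra h
    push Not at h
    have h3 : ∑ l : Fin r, r * Module.finrank K (V l) < ∑ _l : Fin r, M :=
      Finset.sum_lt_sum_of_nonempty ⟨⟨0, hr⟩, Finset.mem_univ _⟩ fun l _ => h l
    rw [← Finset.mul_sum, Finset.sum_const, Finset.card_univ, Fintype.card_fin, smul_eq_mul] at h3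
    have h4 := Nat.lt_of_mul_lt_mul_left h3
    omega
  obtain ⟨l, hl⟩ := h2
  have : FiniteDimensional K (Submodule.span K (Set.range fun i => v i l)) := hfin l
  obtain ⟨f, hf, -, hli⟩ := Submodule.exists_fun_fin_finrank_span_eq K (Set.range fun i => v i l)
  choose s hs using hf
  refine ⟨l, _, s, ?_, hl⟩
  have h3 : (fun i => v (s i) l) = f := funext hs
  rw [h3]
  exact hli

section

variable {N : ℕ} {K : Type} [Field K] {V : ValuationSubring K}
  {Q : Ideal (MvPolynomial (Fin (N + 1)) K)} {A : Set (Fin (N + 1))} (T : Tub V Q A)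

theorem Tub.sg : Sg T.ℬ T.φ T.q Q := ⟨T.φ_deg, T.fin, T.q_prime, T.q_hom, T.q_comap⟩

/-- the tube condition for the ideals of `K[x]` -/
theorem Tub.tubeV {J : Ideal T.B} (hJ : J ∈ T.JJ) : TubeV V (J.comap T.φ ⊔ Q) A := by
  constructor
  · intro F hF m
    obtain ⟨a, ha, b, hb, rfl⟩ := Submodule.mem_sup.1 hF
    rw [map_add]
    refine Submodule.add_mem_sup ?_ (Q_hom T.sg b hb m)
    change T.φ _ ∈ J
    rw [← proj_φ T.φ_deg]
    exact T.JJ_hom J hJ m ha
  · intro i hi
    obtain ⟨ϖ, h0, hu, f, hf, hf0⟩ := T.JJ_tube J hJ i hi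
    refine ⟨ϖ, h0, hu, f, hf, ?_⟩
    have h1 := Polynomial.hom_eval₂ f (MvPolynomial.map V.subtype)
      ((Ideal.Quotient.mk J).comp (T.φ : MvPolynomial (Fin (N + 1)) K →+* T.B))
      (C ((ϖ : K)⁻¹) * X i)
    have h2 : ((Ideal.Quotient.mk J).comp (T.φ : MvPolynomial (Fin (N + 1)) K →+* T.B))
        (f.eval₂ (MvPolynomial.map V.subtype) (C ((ϖ : K)⁻¹) * X i)) = 0 := h1.trans hf0
    have h3 : f.eval₂ (MvPolynomial.map V.subtype) (C ((ϖ : K)⁻¹) * X i) ∈
        J.comap T.φ ⊔ Q := by
      refine (le_sup_left : J.comap T.φ ≤ J.comap T.φ ⊔ Q) ?_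
      exact Ideal.mem_comap.2 (Ideal.Quotient.eq_zero_iff_mem.1 h2)
    have h4 := Polynomial.hom_eval₂ f (MvPolynomial.map V.subtype)
      (Ideal.Quotient.mk (J.comap T.φ ⊔ Q)) (C ((ϖ : K)⁻¹) * X i)
    refine h4.symm.trans ?_
    rw [Ideal.Quotient.eq_zero_iff_mem]
    exact h3

theorem WP_le (n : ℕ) : WP (L := T.L) T.ℬ T.JJ T.JJ_ne T.JJ_mul T.q n ≤
    WP (L := T.L) T.ℬ T.JJ T.JJ_ne T.JJ_mul ⊤ n := by
  rintro b ⟨J, hJ, h⟩
  refine ⟨J, hJ, fun i j hj hji => ?_⟩
  obtain ⟨b', -, hb', h1⟩ := h i j hj hji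
  exact ⟨b', trivial, hb', h1⟩

/-- **The restriction.** -/
theorem restrict [Q.IsPrime] {r m : ℕ} (hr : 0 < r) {ω : Fin r → T.B}
    {c : MvPolynomial (Fin (N + 1)) K}
    (hind : ∀ f : Fin r → MvPolynomial (Fin (N + 1)) K, ∑ l, T.φ (f l) * ω l ∈ T.q →
      ∀ l, f l ∈ Q) (hcQ : c ∉ Q)
    (hgen : ∀ i, ∀ b ∈ T.ℬ i, ∃ f : Fin r → MvPolynomial (Fin (N + 1)) K,
      (∀ l, (f l).IsHomogeneous (m + i)) ∧ T.φ c * b - ∑ l, T.φ (f l) * ω l ∈ T.q)
    (hJq : ∀ J ∈ T.JJ, ∃ (k : ℕ) (g : MvPolynomial (Fin (N + 1)) K),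
      g.IsHomogeneous k ∧ g ∉ Q ∧ T.φ g ∈ J) (n : ℕ) :
    ∃ (k m' : ℕ) (G₀ : MvPolynomial (Fin (N + 1)) K)
      (G : Fin m' → MvPolynomial (Fin (N + 1)) K),
      G₀.IsHomogeneous k ∧ G₀ ∉ Q ∧ (∀ i, (G i).IsHomogeneous (k + (n + m))) ∧
      LinearIndependent K (fun i => Ideal.Quotient.mk Q (G i)) ∧
      (∀ i, PolesV V Q A G₀ (G i)) ∧
      Module.finrank K (WP (L := T.L) T.ℬ T.JJ T.JJ_ne T.JJ_mul ⊤ n) -
        Module.finrank K (WP (L := T.L) T.ℬ T.JJ T.JJ_ne T.JJ_mul T.q n) ≤ r * m' := by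
  have hfam := exists_fam (WP_le T n) (T.W_fin n)
  generalize Module.finrank K (WP (L := T.L) T.ℬ T.JJ T.JJ_ne T.JJ_mul ⊤ n) -
        Module.finrank K (WP (L := T.L) T.ℬ T.JJ T.JJ_ne T.JJ_mul T.q n) = M at hfam ⊢
  obtain ⟨b, hb, hbI⟩ := hfam
  have hq := T.q_prime
  have hinj : Function.Injective (algebraMap T.B T.L) := IsFractionRing.injective T.B T.L
  -- a common ideal
  choose J hJ hJb using hb
  have hJc : ∃ J' ∈ T.JJ, ∀ i, J' ≤ J i := by
    have h1 : ∀ S : Finset (Fin M), ∃ J' ∈ T.JJ, ∀ i ∈ S, J' ≤ J i := by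
      intro S
      induction S using Finset.induction_on with
      | empty =>
        obtain ⟨J', hJ'⟩ := T.JJ_ne
        exact ⟨J', hJ', fun i hi => absurd hi (Finset.notMem_empty i)⟩
      | insert a S _ ih =>
        obtain ⟨J', hJ', h⟩ := ih
        refine ⟨J a * J', T.JJ_mul _ (hJ a) _ hJ', fun i hi => ?_⟩
        rcases Finset.mem_insert.1 hi with rfl | hi
        · exact Ideal.mul_le_left
        · exact Ideal.mul_le_right.trans (h i hi)
    obtain ⟨J', hJ', h⟩ := h1 Finset.univ
    exact ⟨J', hJ', fun i => h i (Finset.mem_univ i)⟩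
  obtain ⟨J', hJ', hle⟩ := hJc
  obtain ⟨k, g, hgh, hgQ, hgJ⟩ := hJq J' hJ'
  have hgk := φ_hom T.φ_deg hgh
  have hgq : T.φ g ∉ T.q := fun h => hgQ ((T.q_comap g).1 h)
  have hcq : T.φ c ∉ T.q := fun h => hcQ ((T.q_comap c).1 h)
  -- the multiples by `g`
  have h1 : ∀ i, ∃ β ∈ T.ℬ (k + n), algebraMap T.B T.L (T.φ g) * b i = algebraMap T.B T.L β := by
    intro i
    obtain ⟨β, -, hβ, h⟩ := hJb i k (T.φ g) (hle i hgJ) hgk
    exact ⟨β, hβ, h⟩
  choose β hβ hβb using h1
  choose f hfh hf using fun i => hgen (k + n) (β i) (hβ i)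
  -- poles
  have hpol : ∀ i l, PolesV V Q A g (f i l) := by
    intro i l
    refine ⟨J'.comap T.φ ⊔ Q, le_sup_right, T.tubeV hJ', ?_⟩
    have hgood : ∀ j ∈ J'.comap T.φ ⊔ Q, ∃ f', g * f' - j * f i l ∈ Q := by
      intro j hj
      obtain ⟨a, ha, s, hs, rfl⟩ := Submodule.mem_sup.1 hj
      have h2 : ∀ i₁, ∃ f', g * f' - homogeneousComponent i₁ a * f i l ∈ Q := by
        intro i₁
        have h3 : T.φ (homogeneousComponent i₁ a) ∈ J' := by
          rw [← proj_φ T.φ_deg]
          exact T.JJ_hom J' hJ' i₁ ha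
        obtain ⟨b', -, hb', hbb⟩ := hJb i i₁ _ (hle i h3)
          (φ_hom T.φ_deg (homogeneousComponent_isHomogeneous i₁ a))
        obtain ⟨f', -, hf'⟩ := hgen (i₁ + n) b' hb'
        refine ⟨f' l, ?_⟩
        -- the relation
        have h4 : T.φ g * b' = T.φ (homogeneousComponent i₁ a) * β i := by
          apply hinj
          rw [map_mul, map_mul, ← hbb, ← hβb i]
          ring
        have h5 : ∑ l, T.φ (g * f' l - homogeneousComponent i₁ a * f i l) * ω l =
            T.φ (homogeneousComponent i₁ a) * (T.φ c * β i - ∑ l, T.φ (f i l) * ω l) -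
              T.φ g * (T.φ c * b' - ∑ l, T.φ (f' l) * ω l) := by
          rw [mul_sub, mul_sub, Finset.mul_sum, Finset.mul_sum]
          have h6 : T.φ (homogeneousComponent i₁ a) * (T.φ c * β i) =
              T.φ g * (T.φ c * b') := by
            calc _ = T.φ c * (T.φ (homogeneousComponent i₁ a) * β i) := by ring
              _ = _ := by rw [← h4]; ring
          rw [h6, sub_sub_sub_cancel_left, ← Finset.sum_sub_distrib]
          refine Finset.sum_congr rfl fun l _ => ?_
          rw [map_sub, map_mul, map_mul]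
          ring
        refine hind (fun l => g * f' l - homogeneousComponent i₁ a * f i l) ?_ l
        rw [h5]
        exact T.q.sub_mem (T.q.mul_mem_left _ (hf i)) (T.q.mul_mem_left _ hf')
      choose f' hf' using h2
      refine ⟨∑ i₁ ∈ Finset.range (a.totalDegree + 1), f' i₁, ?_⟩
      have h3 : g * ∑ i₁ ∈ Finset.range (a.totalDegree + 1), f' i₁ - (a + s) * f i l =
          ∑ i₁ ∈ Finset.range (a.totalDegree + 1),
            (g * f' i₁ - homogeneousComponent i₁ a * f i l) - s * f i l := by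
        rw [Finset.sum_sub_distrib, ← Finset.mul_sum, ← Finset.sum_mul,
          sum_homogeneousComponent]
        ring
      rw [h3]
      exact Q.sub_mem (Q.sum_mem fun i₁ _ => hf' i₁) (Q.mul_mem_right _ hs)
    intro j hj
    obtain ⟨f', hf'⟩ := hgood j hj
    have h2 : algebraMap (MvPolynomial (Fin (N + 1)) K ⧸ Q)
        (FractionRing (MvPolynomial (Fin (N + 1)) K ⧸ Q)) (Ideal.Quotient.mk Q g) ≠ 0 := by
      intro h0
      apply hgQ
      rw [← Ideal.Quotient.eq_zero_iff_mem]
      exact (IsFractionRing.injective (MvPolynomial (Fin (N + 1)) K ⧸ Q)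
        (FractionRing (MvPolynomial (Fin (N + 1)) K ⧸ Q))) (h0.trans (map_zero _).symm)
    have h3 : algebraMap (MvPolynomial (Fin (N + 1)) K ⧸ Q)
        (FractionRing (MvPolynomial (Fin (N + 1)) K ⧸ Q)) (Ideal.Quotient.mk Q (j * f i l)) /
        algebraMap (MvPolynomial (Fin (N + 1)) K ⧸ Q)
        (FractionRing (MvPolynomial (Fin (N + 1)) K ⧸ Q)) (Ideal.Quotient.mk Q g) =
        algebraMap (MvPolynomial (Fin (N + 1)) K ⧸ Q)
        (FractionRing (MvPolynomial (Fin (N + 1)) K ⧸ Q)) (Ideal.Quotient.mk Q f') := by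
      rw [div_eq_iff h2, ← map_mul, ← map_mul]
      congr 1
      rw [Ideal.Quotient.eq, mul_comm f' g, ← neg_sub]
      exact Q.neg_mem hf'
    rw [h3]
    exact isIntegral_algebraMap
  -- independence
  have hv : ∀ a : Fin M → K, (∀ l, ∑ i, a i • Ideal.Quotient.mk Q (f i l) = 0) → a = 0 := by
    intro a ha
    apply hbI
    have h2 : ∀ l, ∑ i, C (a i) * f i l ∈ Q := by
      intro l
      rw [← Ideal.Quotient.eq_zero_iff_mem, map_sum, ← ha l]
      refine Finset.sum_congr rfl fun i _ => ?_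
      rw [← smul_eq_C_mul]
      rfl
    -- the sum of the multiples is in `q`
    have h3 : ∑ i, a i • β i ∈ T.q := by
      have h4 : T.φ c * ∑ i, a i • β i ∈ T.q := by
        have h5 : T.φ c * ∑ i, a i • β i =
            ∑ i, algebraMap K T.B (a i) * (T.φ c * β i - ∑ l, T.φ (f i l) * ω l) +
              ∑ l, T.φ (∑ i, C (a i) * f i l) * ω l := by
          simp only [map_sum, Finset.sum_mul, mul_sub, Finset.sum_sub_distrib, Finset.mul_sum]
          rw [Finset.sum_comm (s := Finset.univ (α := Fin r))]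
          have h6 : ∀ i l, T.φ (C (a i) * f i l) * ω l =
              algebraMap K T.B (a i) * (T.φ (f i l) * ω l) := by
            intro i l
            have h7 : T.φ (C (a i)) = algebraMap K T.B (a i) := T.φ.commutes _
            rw [map_mul, h7, mul_assoc]
          simp only [h6, sub_add_cancel]
          refine Finset.sum_congr rfl fun i _ => ?_
          rw [Algebra.smul_def]
          ring
        rw [h5]
        refine T.q.add_mem (T.q.sum_mem fun i _ => T.q.mul_mem_left _ (hf i))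
          (T.q.sum_mem fun l _ => T.q.mul_mem_right _ ((T.q_comap _).2 (h2 l)))
      exact (hq.mem_or_mem h4).resolve_left hcq
    refine ⟨J', hJ', fun i₁ j hj hji => ?_⟩
    choose b' hb'T hb' hbb using fun i => hJb i i₁ j (hle i hj) hji
    refine ⟨∑ i, a i • b' i, ?_, Submodule.sum_mem _ fun i _ => Submodule.smul_mem _ _ (hb' i), ?_⟩
    · have h4 : T.φ g * ∑ i, a i • b' i = j * ∑ i, a i • β i := by
        rw [Finset.mul_sum, Finset.mul_sum]
        refine Finset.sum_congr rfl fun i _ => ?_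
        rw [mul_smul_comm, mul_smul_comm]
        congr 1
        apply hinj
        rw [map_mul, map_mul, ← hbb i, ← hβb i]
        ring
      have h5 : T.φ g * ∑ i, a i • b' i ∈ T.q := by
        rw [h4]
        exact T.q.mul_mem_left _ h3
      exact (hq.mem_or_mem h5).resolve_left hgq
    · rw [Finset.mul_sum, map_sum]
      refine Finset.sum_congr rfl fun i _ => ?_
      rw [mul_smul_comm, hbb i, Algebra.smul_def, Algebra.smul_def, map_mul,
        ← IsScalarTower.algebraMap_apply K T.B T.L]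
  obtain ⟨l, m', s, hli, hMm⟩ := exists_comp hr (fun i l => Ideal.Quotient.mk Q (f i l)) hv
  refine ⟨k, m', g, fun i => f (s i) l, hgh, hgQ, fun i => ?_, hli, fun i => hpol _ _, hMm⟩
  have h2 := hfh (s i) l
  rwa [show m + (k + n) = k + (n + m) by omega] at h2

end

end Pool.Agent.FIN
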