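import Pool.Agent.FIN.Defs

/-!
# FIN, piece (W): a homogeneous basis of `B / q` over `K[X] / Q` up to a denominator, and the
growth of `B / q`
-/

set_option autoImplicit false

namespace Pool.Agent.FIN

open MvPolynomial
open scoped Classical

noncomputable section

section ww

variable {K B : Type} [Field K] [CommRing B] [Algebra K B] {n : ℕ}
  (ℬ : ℕ → Submodule K B) [GradedAlgebra ℬ] (φ : MvPolynomial (Fin n) K →ₐ[K] B)
  (hφ : ∀ i, φ (X i) ∈ ℬ 1)

include hφ in
theorem ww_hom (m : ℕ) (f : MvPolynomial (Fin n) K) (hf : f.IsHomogeneous m) : φ f ∈ ℬ m := by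
  rw [f.as_sum, map_sum]
  refine Submodule.sum_mem _ fun s hs => ?_
  have h1 : φ (monomial s (coeff s f)) = coeff s f • ∏ i, φ (X i) ^ s i := by
    rw [MvPolynomial.monomial_eq, map_mul, ← MvPolynomial.algebraMap_eq, AlgHom.commutes,
      Finsupp.prod_fintype _ _ (fun i => pow_zero _), map_prod, Algebra.smul_def]
    simp only [map_pow]
  rw [h1]
  refine Submodule.smul_mem _ _ ?_
  have h2 : s.degree = m := by
    by_contra h
    exact (mem_support_iff.1 hs) (hf.coeff_eq_zero h)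
  have h3 : ∀ T : Finset (Fin n), ∏ i ∈ T, φ (X i) ^ s i ∈ ℬ (∑ i ∈ T, s i) := by
    intro T
    induction T using Finset.induction_on with
    | empty => simpa using SetLike.GradedOne.one_mem (A := ℬ)
    | insert a T ha ih =>
      rw [Finset.prod_insert ha, Finset.sum_insert ha]
      refine SetLike.GradedMul.mul_mem ?_ ih
      have := SetLike.pow_mem_graded (s a) (hφ a)
      simpa using this
  have h4 := h3 Finset.univ
  rw [← h2, Finsupp.degree_eq_sum]
  exact h4

include hφ in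
theorem ww_cmp (a : MvPolynomial (Fin n) K) (j : ℕ) :
    (DirectSum.decompose ℬ (φ a) j : B) = φ (homogeneousComponent j a) := by
  have h1 : φ a = ∑ i ∈ Finset.range (a.totalDegree + 1), φ (homogeneousComponent i a) := by
    rw [← map_sum, sum_homogeneousComponent]
  rw [h1, DirectSum.decompose_sum]
  have h2 : ((∑ i ∈ Finset.range (a.totalDegree + 1),
      DirectSum.decompose ℬ (φ (homogeneousComponent i a))) j : B) =
      ∑ i ∈ Finset.range (a.totalDegree + 1),
        (DirectSum.decompose ℬ (φ (homogeneousComponent i a)) j : B) := by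
    rw [DFinsupp.finsetSum_apply]
    simp
  rw [h2]
  have h3 : ∀ i, (DirectSum.decompose ℬ (φ (homogeneousComponent i a)) j : B) =
      if i = j then φ (homogeneousComponent j a) else 0 := by
    intro i
    have h4 := ww_hom ℬ φ hφ i _ (homogeneousComponent_isHomogeneous i a)
    split_ifs with h
    · subst h
      exact DirectSum.decompose_of_mem_same ℬ h4
    · exact DirectSum.decompose_of_mem_ne ℬ h4 h
  simp_rw [h3]
  rw [Finset.sum_ite_eq']
  split_ifs with h
  · rfl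
  · rw [Finset.mem_range, not_lt] at h
    rw [homogeneousComponent_eq_zero _ _ (by omega), map_zero]

include hφ in
/-- the component of degree `m` of a linear combination of homogeneous elements -/
theorem ww_cmp_sum {ι : Type} (T : Finset ι) (a : ι → MvPolynomial (Fin n) K) (t : ι → B)
    (e : ι → ℕ) (ht : ∀ i ∈ T, t i ∈ ℬ (e i)) (m : ℕ) :
    (DirectSum.decompose ℬ (∑ i ∈ T, φ (a i) * t i) m : B) =
      ∑ i ∈ T, φ (if e i ≤ m then homogeneousComponent (m - e i) (a i) else 0) * t i := by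
  rw [DirectSum.decompose_sum, DFinsupp.finsetSum_apply]
  simp only [AddSubmonoidClass.coe_finsetSum]
  refine Finset.sum_congr rfl fun i hi => ?_
  rw [DirectSum.coe_decompose_mul_of_right_mem ℬ m (ht i hi)]
  split_ifs with h
  · rw [ww_cmp ℬ φ hφ]
  · rw [map_zero, zero_mul]

/-- homogeneous generators -/
theorem ww_gen (hfin : φ.toRingHom.Finite) : ∃ (T : Finset B) (e : B → ℕ),
    (∀ t ∈ T, t ∈ ℬ (e t)) ∧
      ∀ b : B, ∃ P : B → MvPolynomial (Fin n) K, b = ∑ t ∈ T, φ (P t) * t := by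
  letI : Algebra (MvPolynomial (Fin n) K) B := φ.toRingHom.toAlgebra
  have hf : Module.Finite (MvPolynomial (Fin n) K) B := hfin
  obtain ⟨T₀, hT₀⟩ := hf.fg_top
  set T : Finset B := T₀.biUnion fun t =>
    (DirectSum.decompose ℬ t).support.image fun i => (DirectSum.decompose ℬ t i : B) with hT
  have hhom : ∀ t ∈ T, ∃ k, t ∈ ℬ k := by
    intro t ht
    rw [hT, Finset.mem_biUnion] at ht
    obtain ⟨s, -, hs⟩ := ht
    rw [Finset.mem_image] at hs
    obtain ⟨i, -, rfl⟩ := hs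
    exact ⟨i, SetLike.coe_mem _⟩
  choose! e he using hhom
  refine ⟨T, e, he, fun b => ?_⟩
  have hb : b ∈ Submodule.span (MvPolynomial (Fin n) K) (T : Set B) := by
    have h1 : Submodule.span (MvPolynomial (Fin n) K) (T₀ : Set B) ≤
        Submodule.span (MvPolynomial (Fin n) K) (T : Set B) := by
      rw [Submodule.span_le]
      intro t ht
      have h2 := DirectSum.sum_support_decompose ℬ t
      rw [← h2]
      refine Submodule.sum_mem _ fun i hi => Submodule.subset_span ?_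
      rw [hT, Finset.mem_coe, Finset.mem_biUnion]
      exact ⟨t, ht, Finset.mem_image_of_mem _ hi⟩
    exact h1 (hT₀ ▸ Submodule.mem_top)
  obtain ⟨P, -, hP⟩ := Submodule.mem_span_finset.1 hb
  exact ⟨P, hP.symm⟩

include hφ in
/-- the components of `B` are finite dimensional -/
theorem ww_fin (hfin : φ.toRingHom.Finite) (m : ℕ) : Module.Finite K (ℬ m) := by
  obtain ⟨T, e, he, hg⟩ := ww_gen ℬ φ hfin
  let W : B → Submodule K B := fun t =>
    ((homogeneousSubmodule (Fin n) K (m - e t)).map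
      ((LinearMap.mulRight K t).comp φ.toLinearMap))
  have hW : ∀ t, (W t).FG := fun t => (homogeneousSubmodule_fg (Fin n) K _).map _
  have h1 : (⨆ t ∈ T, W t).FG := Submodule.fg_biSup T W fun t _ => hW t
  have h2 : ℬ m ≤ ⨆ t ∈ T, W t := by
    intro b hb
    obtain ⟨P, hP⟩ := hg b
    have h3 := ww_cmp_sum ℬ φ hφ T P id e he m
    simp only [id] at h3
    rw [← hP, DirectSum.decompose_of_mem_same ℬ hb] at h3
    rw [h3]
    refine Submodule.sum_mem _ fun t ht => ?_
    have h4 : W t ≤ ⨆ t ∈ T, W t := le_iSup₂_of_le t ht le_rfl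
    refine h4 ?_
    split_ifs with h
    · exact ⟨_, homogeneousComponent_isHomogeneous _ _, rfl⟩
    · simp
  have h5 : Module.Finite K (⨆ t ∈ T, W t : Submodule K B) := Module.Finite.iff_fg.2 h1
  exact Submodule.finiteDimensional_of_le h2

include hφ in
/-- **the basis** -/
theorem ww_basis (hfin : φ.toRingHom.Finite) (q : Ideal B) (hq : q.IsPrime)
    (hqh : q.IsHomogeneous ℬ) : ∃ (d : ℕ) (ω : Fin d → B) (e : Fin d → ℕ)
      (f : MvPolynomial (Fin n) K) (k : ℕ), (∀ i, ω i ∈ ℬ (e i)) ∧ f.IsHomogeneous k ∧ φ f ∉ q ∧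
      (∀ a : Fin d → MvPolynomial (Fin n) K, ∑ i, φ (a i) * ω i ∈ q → ∀ i, φ (a i) ∈ q) ∧
      ∀ b : B, ∃ a : Fin d → MvPolynomial (Fin n) K, φ f * b - ∑ i, φ (a i) * ω i ∈ q := by
  obtain ⟨T, e, he, hg⟩ := ww_gen ℬ φ hfin
  -- maximal independent subset
  let Ind : Finset B → Prop := fun U => ∀ a : B → MvPolynomial (Fin n) K,
    ∑ t ∈ U, φ (a t) * t ∈ q → ∀ t ∈ U, φ (a t) ∈ q
  obtain ⟨U, hU, hmax⟩ : ∃ U ∈ T.powerset.filter Ind,
      ∀ U' ∈ T.powerset.filter Ind, U'.card ≤ U.card := by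
    refine Finset.exists_max_image (T.powerset.filter Ind) Finset.card ⟨∅, ?_⟩
    rw [Finset.mem_filter]
    exact ⟨Finset.empty_mem_powerset _, fun a _ t ht => absurd ht (Finset.notMem_empty t)⟩
  rw [Finset.mem_filter, Finset.mem_powerset] at hU
  obtain ⟨hUT, hUi⟩ := hU
  have key : ∀ t : B, t ∈ T → ∃ (f : MvPolynomial (Fin n) K) (k : ℕ), f.IsHomogeneous k ∧
      φ f ∉ q ∧ ∃ a : B → MvPolynomial (Fin n) K, φ f * t - ∑ s ∈ U, φ (a s) * s ∈ q := by
    intro t ht
    by_cases htU : t ∈ U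
    · refine ⟨1, 0, isHomogeneous_one _ _, ?_, fun s => if s = t then 1 else 0, ?_⟩
      · rw [map_one]
        exact fun h => hq.ne_top ((Ideal.eq_top_iff_one _).2 h)
      · rw [Finset.sum_eq_single t]
        · simp
        · intro s _ hst
          simp [hst]
        · intro h
          exact absurd htU h
    · have h1 : ¬Ind (insert t U) := by
        intro h
        have h2 := hmax (insert t U) (by
          rw [Finset.mem_filter, Finset.mem_powerset]
          exact ⟨Finset.insert_subset ht hUT, h⟩)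
        rw [Finset.card_insert_of_notMem htU] at h2
        omega
      simp only [Ind, not_forall] at h1
      obtain ⟨a, ha, s, hs, has⟩ := h1
      have h3 : φ (a t) ∉ q := by
        intro h4
        have h5 : ∑ t ∈ U, φ (a t) * t ∈ q := by
          rw [Finset.sum_insert htU] at ha
          have := q.sub_mem ha (q.mul_mem_right t h4)
          rwa [add_sub_cancel_left] at this
        rcases Finset.mem_insert.1 hs with rfl | hs'
        · exact has h4
        · exact has (hUi a h5 s hs')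
      obtain ⟨j, hj⟩ : ∃ j, φ (homogeneousComponent j (a t)) ∉ q := by
        by_contra hcon
        push Not at hcon
        apply h3
        have h6 : φ (a t) = ∑ i ∈ Finset.range ((a t).totalDegree + 1),
            φ (homogeneousComponent i (a t)) := by
          rw [← map_sum, sum_homogeneousComponent]
        rw [h6]
        exact q.sum_mem fun i _ => hcon i
      refine ⟨homogeneousComponent j (a t), j, homogeneousComponent_isHomogeneous _ _, hj,
        fun s => -(if e s ≤ j + e t then homogeneousComponent (j + e t - e s) (a s) else 0), ?_⟩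
      have h7 := ww_cmp_sum ℬ φ hφ (insert t U) a id e (fun i hi => by
        rcases Finset.mem_insert.1 hi with rfl | hi'
        · exact he _ ht
        · exact he _ (hUT hi')) (j + e t)
      have h8 : (DirectSum.decompose ℬ (∑ i ∈ insert t U, φ (a i) * id i) (j + e t) : B) ∈ q :=
        hqh (j + e t) ha
      rw [h7, Finset.sum_insert htU] at h8
      simp only [id, le_add_iff_nonneg_left, zero_le, if_true, Nat.add_sub_cancel] at h8
      simp only [map_neg, neg_mul, Finset.sum_neg_distrib, sub_neg_eq_add]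
      exact h8
  choose! F k hF hFq A hA using key
  have hfh : (∏ t ∈ T, F t).IsHomogeneous (∑ t ∈ T, k t) := IsHomogeneous.prod _ _ _ hF
  have hfq : φ (∏ t ∈ T, F t) ∉ q := by
    rw [map_prod]
    intro h
    obtain ⟨t, ht, h'⟩ := (hq.prod_mem_iff).1 h
    exact hFq t ht h'
  have hU2 : ∀ b : B, ∃ a : B → MvPolynomial (Fin n) K,
      φ (∏ t ∈ T, F t) * b - ∑ s ∈ U, φ (a s) * s ∈ q := by
    intro b
    obtain ⟨P, hP⟩ := hg b
    refine ⟨fun s => ∑ t ∈ T, P t * (∏ t' ∈ T.erase t, F t') * A t s, ?_⟩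
    have h1 : φ (∏ t ∈ T, F t) * b - ∑ s ∈ U, φ (∑ t ∈ T, P t * (∏ t' ∈ T.erase t, F t') * A t s) * s
        = ∑ t ∈ T, φ (P t * (∏ t' ∈ T.erase t, F t')) * (φ (F t) * t - ∑ s ∈ U, φ (A t s) * s) := by
      have h2 : ∑ s ∈ U, φ (∑ t ∈ T, P t * (∏ t' ∈ T.erase t, F t') * A t s) * s =
          ∑ t ∈ T, φ (P t * (∏ t' ∈ T.erase t, F t')) * ∑ s ∈ U, φ (A t s) * s := by
        simp only [map_sum, Finset.sum_mul, Finset.mul_sum]
        rw [Finset.sum_comm]
        refine Finset.sum_congr rfl fun t _ => Finset.sum_congr rfl fun s _ => ?_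
        rw [map_mul]
        ring
      rw [h2]
      have h3 : φ (∏ t ∈ T, F t) * b =
          ∑ t ∈ T, φ (P t * (∏ t' ∈ T.erase t, F t')) * (φ (F t) * t) := by
        conv_lhs => rw [hP]
        rw [Finset.mul_sum]
        refine Finset.sum_congr rfl fun t ht => ?_
        rw [← Finset.mul_prod_erase T F ht]
        simp only [map_mul]
        ring
      rw [h3, ← Finset.sum_sub_distrib]
      exact Finset.sum_congr rfl fun t _ => by ring
    rw [h1]
    exact q.sum_mem fun t ht => q.mul_mem_left _ (hA t ht)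
  refine ⟨U.card, fun i => (U.equivFin.symm i : B), fun i => e (U.equivFin.symm i), _, _,
    fun i => he _ (hUT (U.equivFin.symm i).2), hfh, hfq, ?_, ?_⟩
  · intro a ha i
    have h1 : ∑ t ∈ U, φ ((fun t : B => if h : t ∈ U then a (U.equivFin ⟨t, h⟩) else 0) t) * t
        = ∑ i, φ (a i) * (U.equivFin.symm i : B) := by
      rw [← Finset.sum_coe_sort U, ← Equiv.sum_comp U.equivFin.symm]
      refine Finset.sum_congr rfl fun i _ => ?_
      simp
    have h2 := hUi _ (h1 ▸ ha) (U.equivFin.symm i) (U.equivFin.symm i).2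
    simpa using h2
  · intro b
    obtain ⟨a, ha⟩ := hU2 b
    refine ⟨fun i => a (U.equivFin.symm i), ?_⟩
    have h1 : ∑ t ∈ U, φ (a t) * t = ∑ i, φ (a (U.equivFin.symm i)) * (U.equivFin.symm i : B) := by
      rw [← Finset.sum_coe_sort U, ← Equiv.sum_comp U.equivFin.symm]
    rw [← h1]
    exact ha

include hφ in
/-- **the growth** -/
theorem ww_growth (hfin : φ.toRingHom.Finite) (q : Ideal B) (d : ℕ) (ω : Fin d → B)
    (e : Fin d → ℕ) (hω : ∀ i, ω i ∈ ℬ (e i))
    (hind : ∀ a : Fin d → MvPolynomial (Fin n) K, ∑ i, φ (a i) * ω i ∈ q → ∀ i, φ (a i) ∈ q)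
    (m : ℕ) : ∑ i, (if e i ≤ m then Module.finrank K
      ((homogeneousSubmodule (Fin n) K (m - e i)).map
        (Ideal.Quotient.mkₐ K (q.comap φ)).toLinearMap) else 0) ≤
      Module.finrank K ((ℬ m).map (Ideal.Quotient.mkₐ K q).toLinearMap) := by
  let Q := q.comap φ
  let V : Fin d → Submodule K (MvPolynomial (Fin n) K ⧸ Q) := fun i =>
    if e i ≤ m then (homogeneousSubmodule (Fin n) K (m - e i)).map
        (Ideal.Quotient.mkₐ K Q).toLinearMap else ⊥
  have hVp : ∀ i, e i ≤ m → V i = (homogeneousSubmodule (Fin n) K (m - e i)).map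
        (Ideal.Quotient.mkₐ K Q).toLinearMap := fun i h => if_pos h
  have hVn : ∀ i, ¬e i ≤ m → V i = ⊥ := fun i h => if_neg h
  have hV : ∀ i, Module.Finite K (V i) := by
    intro i
    by_cases h : e i ≤ m
    · rw [hVp i h]
      exact Module.Finite.iff_fg.2 ((homogeneousSubmodule_fg (Fin n) K _).map _)
    · rw [hVn i h]
      infer_instance
  have hfr : ∑ i, (if e i ≤ m then Module.finrank K
      ((homogeneousSubmodule (Fin n) K (m - e i)).map
        (Ideal.Quotient.mkₐ K (q.comap φ)).toLinearMap) else 0) =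
      Module.finrank K (∀ i, V i) := by
    rw [Module.finrank_pi_fintype]
    refine Finset.sum_congr rfl fun i _ => ?_
    by_cases h : e i ≤ m
    · rw [if_pos h, hVp i h]
    · rw [if_neg h, hVn i h, finrank_bot]
  rw [hfr]
  let φb : (MvPolynomial (Fin n) K ⧸ Q) →ₐ[K] B ⧸ q :=
    Ideal.Quotient.liftₐ Q ((Ideal.Quotient.mkₐ K q).comp φ) fun a ha =>
      Ideal.Quotient.eq_zero_iff_mem.2 ha
  have hφb : ∀ a, φb (Ideal.Quotient.mk Q a) = Ideal.Quotient.mk q (φ a) := fun a => rfl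
  let Ψ : (∀ i, V i) →ₗ[K] B ⧸ q :=
    ∑ i, (LinearMap.mulRight K (Ideal.Quotient.mk q (ω i))).comp
      (φb.toLinearMap.comp ((V i).subtype.comp (LinearMap.proj i)))
  have hΨ : ∀ v, Ψ v = ∑ i, φb (v i : MvPolynomial (Fin n) K ⧸ Q) * Ideal.Quotient.mk q (ω i) := by
    intro v
    simp [Ψ]
  haveI := ww_fin ℬ φ hφ hfin m
  haveI : Module.Finite K ((ℬ m).map (Ideal.Quotient.mkₐ K q).toLinearMap) :=
    Module.Finite.iff_fg.2 ((Module.Finite.iff_fg.1 (ww_fin ℬ φ hφ hfin m)).map _)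
  have hmem : ∀ v, Ψ v ∈ (ℬ m).map (Ideal.Quotient.mkₐ K q).toLinearMap := by
    intro v
    rw [hΨ]
    refine Submodule.sum_mem _ fun i _ => ?_
    have h1 := (v i).2
    by_cases h : e i ≤ m
    · have h2 : ((v i : V i) : MvPolynomial (Fin n) K ⧸ Q) ∈
          (homogeneousSubmodule (Fin n) K (m - e i)).map
            (Ideal.Quotient.mkₐ K Q).toLinearMap := (hVp i h).le h1
      obtain ⟨a, ha, ha'⟩ := h2
      rw [← ha']
      refine ⟨φ a * ω i, ?_, ?_⟩
      · have h3 := SetLike.GradedMul.mul_mem (ww_hom ℬ φ hφ _ a ha) (hω i)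
        rwa [Nat.sub_add_cancel h] at h3
      · show Ideal.Quotient.mk q (φ a * ω i) = _
        rw [map_mul]
        rfl
    · have h2 : ((v i : V i) : MvPolynomial (Fin n) K ⧸ Q) = 0 := by
        exact (Submodule.mem_bot K).1 ((hVn i h).le h1)
      rw [h2, map_zero, zero_mul]
      exact Submodule.zero_mem _
  let Ψ' : (∀ i, V i) →ₗ[K] ((ℬ m).map (Ideal.Quotient.mkₐ K q).toLinearMap) :=
    LinearMap.codRestrict _ Ψ hmem
  refine LinearMap.finrank_le_finrank_of_injective (f := Ψ') ?_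
  rw [← LinearMap.ker_eq_bot, LinearMap.ker_eq_bot']
  intro v hv
  have h1 : Ψ v = 0 := congrArg Subtype.val hv
  rw [hΨ] at h1
  have h2 : ∀ i, ∃ a : MvPolynomial (Fin n) K, Ideal.Quotient.mk Q a = v i := fun i =>
    Ideal.Quotient.mk_surjective _
  choose a ha using h2
  have h3 : ∑ i, φ (a i) * ω i ∈ q := by
    rw [← Ideal.Quotient.eq_zero_iff_mem, map_sum, ← h1]
    refine Finset.sum_congr rfl fun i _ => ?_
    rw [← ha i, hφb, map_mul]
  have h4 := hind a h3
  funext i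
  apply Subtype.ext
  rw [← ha i]
  exact Ideal.Quotient.eq_zero_iff_mem.2 (h4 i)

include hφ in
/-- **the growth**, numerically -/
theorem ww_grow (hfin : φ.toRingHom.Finite) (q : Ideal B) (d : ℕ) (ω : Fin d → B)
    (e : Fin d → ℕ) (hω : ∀ i, ω i ∈ ℬ (e i))
    (hind : ∀ a : Fin d → MvPolynomial (Fin n) K, ∑ i, φ (a i) * ω i ∈ q → ∀ i, φ (a i) ∈ q)
    (δ : ℕ) (C : ℕ) (hC : ∀ m : ℕ, δ * (m : ℚ) ^ 2 / 2 ≤
      Module.finrank K ((homogeneousSubmodule (Fin n) K m).map
        (Ideal.Quotient.mkₐ K (q.comap φ)).toLinearMap) + C * ((m : ℚ) + 1)) :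
    ∃ C' : ℕ, ∀ m : ℕ, ((d * δ : ℕ) : ℚ) * (m : ℚ) ^ 2 / 2 ≤
      Module.finrank K ((ℬ m).map (Ideal.Quotient.mkₐ K q).toLinearMap) + C' * ((m : ℚ) + 1) := by
  refine ⟨∑ i, (δ * e i + C), fun m => ?_⟩
  have h1 := ww_growth ℬ φ hφ hfin q d ω e hω hind m
  have h2 : ((∑ i, (if e i ≤ m then Module.finrank K
      ((homogeneousSubmodule (Fin n) K (m - e i)).map
        (Ideal.Quotient.mkₐ K (q.comap φ)).toLinearMap) else 0) : ℕ) : ℚ) ≤
      Module.finrank K ((ℬ m).map (Ideal.Quotient.mkₐ K q).toLinearMap) := by exact_mod_cast h1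
  have h3 : ((d * δ : ℕ) : ℚ) * (m : ℚ) ^ 2 / 2 = ∑ i : Fin d, (δ * (m : ℚ) ^ 2 / 2) := by
    rw [Finset.sum_const, Finset.card_univ, Fintype.card_fin, nsmul_eq_mul]
    push_cast
    ring
  rw [h3]
  have h4 : ∀ i : Fin d, (δ * (m : ℚ) ^ 2 / 2) ≤ ((if e i ≤ m then Module.finrank K
      ((homogeneousSubmodule (Fin n) K (m - e i)).map
        (Ideal.Quotient.mkₐ K (q.comap φ)).toLinearMap) else 0 : ℕ) : ℚ) +
      ((δ * e i + C : ℕ) : ℚ) * ((m : ℚ) + 1) := by
    intro i
    have hδ : (0 : ℚ) ≤ δ := Nat.cast_nonneg _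
    have hCn : (0 : ℚ) ≤ C := Nat.cast_nonneg _
    have hen : (0 : ℚ) ≤ e i := Nat.cast_nonneg _
    have hmn : (0 : ℚ) ≤ m := Nat.cast_nonneg _
    push_cast
    split_ifs with h
    · have h5 := hC (m - e i)
      rw [Nat.cast_sub h] at h5
      have h6 : (C : ℚ) * ((m : ℚ) - e i + 1) ≤ C * ((m : ℚ) + 1) :=
        mul_le_mul_of_nonneg_left (by linarith) hCn
      have h7 : (δ : ℚ) * (m : ℚ) ^ 2 / 2 ≤
          δ * ((m : ℚ) - e i) ^ 2 / 2 + δ * e i * ((m : ℚ) + 1) := by
        have : 0 ≤ (δ : ℚ) * ((e i : ℚ) ^ 2 / 2 + e i) := by positivity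
        nlinarith
      linarith
    · have h5 : (m : ℚ) ≤ e i := by
        push Not at h
        exact_mod_cast h.le
      have h6 : (δ : ℚ) * (m : ℚ) ^ 2 ≤ δ * (e i * m) := by
        refine mul_le_mul_of_nonneg_left ?_ hδ
        nlinarith
      have h8 : 0 ≤ (δ : ℚ) * (e i * m) := by positivity
      have h9 : 0 ≤ (δ : ℚ) * e i := by positivity
      have h10 : 0 ≤ (C : ℚ) * ((m : ℚ) + 1) := by positivity
      push_cast
      nlinarith
  calc ∑ i : Fin d, (δ * (m : ℚ) ^ 2 / 2) ≤ ∑ i : Fin d, (((if e i ≤ m then Module.finrank K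
      ((homogeneousSubmodule (Fin n) K (m - e i)).map
        (Ideal.Quotient.mkₐ K (q.comap φ)).toLinearMap) else 0 : ℕ) : ℚ) +
      ((δ * e i + C : ℕ) : ℚ) * ((m : ℚ) + 1)) := Finset.sum_le_sum fun i _ => h4 i
    _ = ((∑ i, (if e i ≤ m then Module.finrank K
      ((homogeneousSubmodule (Fin n) K (m - e i)).map
        (Ideal.Quotient.mkₐ K (q.comap φ)).toLinearMap) else 0) : ℕ) : ℚ) +
        ((∑ i, (δ * e i + C) : ℕ) : ℚ) * ((m : ℚ) + 1) := by
      rw [Finset.sum_add_distrib, ← Finset.sum_mul]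
      push_cast
      ring
    _ ≤ _ := by linarith

include hφ in
/-- the coefficients of a homogeneous element can be taken homogeneous -/
theorem ww_coe (q : Ideal B) (hqh : q.IsHomogeneous ℬ) (d : ℕ) (ω : Fin d → B) (e : Fin d → ℕ)
    (hω : ∀ i, ω i ∈ ℬ (e i)) (m : ℕ) (b : B) (hb : b ∈ ℬ m)
    (a : Fin d → MvPolynomial (Fin n) K) (ha : b - ∑ i, φ (a i) * ω i ∈ q) :
    ∃ a' : Fin d → MvPolynomial (Fin n) K, (∀ i, (a' i).IsHomogeneous (m - e i)) ∧
      (∀ i, m < e i → a' i = 0) ∧ b - ∑ i, φ (a' i) * ω i ∈ q := by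
  refine ⟨fun i => if e i ≤ m then homogeneousComponent (m - e i) (a i) else 0, fun i => ?_,
    fun i hi => if_neg (by omega), ?_⟩
  · dsimp only
    split_ifs
    · exact homogeneousComponent_isHomogeneous _ _
    · exact isHomogeneous_zero _ _ _
  · have h1 := hqh m ha
    rw [DirectSum.decompose_sub, DirectSum.sub_apply, AddSubgroupClass.coe_sub,
      DirectSum.decompose_of_mem_same ℬ hb,
      ww_cmp_sum ℬ φ hφ Finset.univ a ω e (fun i _ => hω i)] at h1
    exact h1

end ww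

/-- **(W)**: a homogeneous basis of `B / q` over `K[X] / Q` up to the denominator `f`, and the
growth of `B / q`. -/
theorem www {N : ℕ} {K B : Type} [Field K] [CommRing B] [Algebra K B] (ℬ : ℕ → Submodule K B)
    [GradedAlgebra ℬ] (φ : MvPolynomial (Fin (N + 1)) K →ₐ[K] B) (hφ : ∀ i, φ (X i) ∈ ℬ 1)
    (fin : ∃ T : Finset B, ∀ b : B, ∃ f : B → MvPolynomial (Fin (N + 1)) K,
      b = ∑ t ∈ T, φ (f t) * t)
    (q : Ideal B) (hq : q.IsPrime) (hqh : q.IsHomogeneous ℬ)
    (Q : Ideal (MvPolynomial (Fin (N + 1)) K)) (hQ : ∀ g, φ g ∈ q ↔ g ∈ Q) (δ : ℕ)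
    (hδ : Pool.Agent.TFR.HilbDeg Q δ) :
    ∃ (d : ℕ) (ω : Fin d → B) (e : Fin d → ℕ) (f : MvPolynomial (Fin (N + 1)) K) (k : ℕ),
      0 < d ∧ (∀ i, ω i ∈ ℬ (e i)) ∧ f.IsHomogeneous k ∧ f ∉ Q ∧
      (∀ a : Fin d → MvPolynomial (Fin (N + 1)) K, ∑ i, φ (a i) * ω i ∈ q → ∀ i, a i ∈ Q) ∧
      (∀ b : B, ∃ a : Fin d → MvPolynomial (Fin (N + 1)) K, φ f * b - ∑ i, φ (a i) * ω i ∈ q) ∧
      (∀ (m : ℕ) (b : B), b ∈ ℬ m → ∃ a : Fin d → MvPolynomial (Fin (N + 1)) K,
        (∀ i, (a i).IsHomogeneous (k + m - e i)) ∧ (∀ i, k + m < e i → a i = 0) ∧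
        φ f * b - ∑ i, φ (a i) * ω i ∈ q) ∧
      Grow ℬ q (d * δ) := by
  have hfin : φ.toRingHom.Finite := by
    letI : Algebra (MvPolynomial (Fin (N + 1)) K) B := φ.toRingHom.toAlgebra
    show Module.Finite (MvPolynomial (Fin (N + 1)) K) B
    obtain ⟨T, hT⟩ := fin
    refine ⟨⟨T, ?_⟩⟩
    rw [eq_top_iff]
    rintro b -
    obtain ⟨f, hf⟩ := hT b
    rw [hf]
    refine Submodule.sum_mem _ fun t ht => ?_
    have h2 : φ (f t) * t = f t • t := rfl
    rw [h2]
    exact Submodule.smul_mem _ _ (Submodule.subset_span (Finset.mem_coe.2 ht))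
  obtain ⟨d, ω, e, f, k, h1, h2, h3, h4, h5⟩ := ww_basis ℬ φ hφ hfin q hq hqh
  have hcomap : q.comap φ = Q := by
    ext g
    exact hQ g
  have hd : 0 < d := by
    rcases Nat.eq_zero_or_pos d with rfl | h
    · exfalso
      obtain ⟨a, ha⟩ := h5 1
      simp only [mul_one, Finset.univ_eq_empty, Finset.sum_empty, sub_zero] at ha
      exact h3 ha
    · exact h
  refine ⟨d, ω, e, f, k, hd, h1, h2, fun h => h3 ((hQ f).2 h), fun a ha i => (hQ _).1 (h4 a ha i),
    h5, fun m b hb => ?_, ?_⟩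
  · obtain ⟨a, ha⟩ := h5 b
    exact ww_coe ℬ φ hφ q hqh d ω e h1 (k + m) (φ f * b)
      (SetLike.GradedMul.mul_mem (ww_hom ℬ φ hφ k f h2) hb) a ha
  · obtain ⟨R, hR⟩ := hδ
    obtain ⟨C, hC⟩ := exists_nat_ge R
    refine ww_grow ℬ φ hφ hfin q d ω e h1 h4 δ C fun m => ?_
    rw [hcomap]
    have h6 := (abs_le.1 (hR m)).1
    have h7 : R * ((m : ℝ) + 1) ≤ C * ((m : ℝ) + 1) :=
      mul_le_mul_of_nonneg_right hC (by positivity)
    have h8 : (δ : ℝ) * (m : ℝ) ^ 2 / 2 ≤ (Pool.Agent.TFR.hilb Q m : ℝ) + C * ((m : ℝ) + 1) := by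
      linarith
    have h9 : (((δ : ℚ) * (m : ℚ) ^ 2 / 2 : ℚ) : ℝ) ≤
        (((Pool.Agent.TFR.hilb Q m : ℚ) + C * ((m : ℚ) + 1) : ℚ) : ℝ) := by
      push_cast
      exact h8
    exact Rat.cast_le.1 h9

end

end Pool.Agent.FIN
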